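import Pool.Agent.Zk30.Cnt

/-!
# One block of consecutive slopes
-/

set_option autoImplicit false

namespace Pool.Agent.Zk30

open Finset

/-- the sum of the points of abscissae `x`, `x'` on the rays of slopes `l`, `m` -/
def pt (w : ℚ × ℚ) (q : ℤ × ℤ) : ℚ × ℚ := ((q.1 : ℚ) + q.2, w.1 * q.1 + w.2 * q.2)

/-- the collisions of two pairs of slopes -/
def coll (Q : ℚ → Finset ℤ) (w w' : ℚ × ℚ) : Finset ((ℤ × ℤ) × (ℤ × ℤ)) :=
  ((Q w.1 ×ˢ Q w.2) ×ˢ (Q w'.1 ×ˢ Q w'.2)).filter fun q => pt w q.1 = pt w' q.2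

theorem mem_coll {Q : ℚ → Finset ℤ} {w w' : ℚ × ℚ} {q : (ℤ × ℤ) × (ℤ × ℤ)} :
    q ∈ coll Q w w' ↔ ((q.1.1 ∈ Q w.1 ∧ q.1.2 ∈ Q w.2) ∧ (q.2.1 ∈ Q w'.1 ∧ q.2.2 ∈ Q w'.2)) ∧
      ((q.1.1 : ℚ) + q.1.2 = q.2.1 + q.2.2 ∧
        w.1 * q.1.1 + w.2 * q.1.2 = w'.1 * q.2.1 + w'.2 * q.2.2) := by
  unfold coll pt
  simp only [mem_filter, mem_product, Prod.mk.injEq]

theorem coll_self (Q : ℚ → Finset ℤ) (w : ℚ × ℚ) (hw : w.1 < w.2) :
    (coll Q w w).card ≤ (Q w.1).card * (Q w.2).card := by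
  rw [← card_product]
  refine card_le_card_of_injOn (fun q => q.1) ?_ ?_
  · intro q hq
    rw [mem_coe, mem_coll] at hq
    rw [mem_coe, mem_product]
    exact hq.1.1
  · rintro ⟨⟨a, b⟩, ⟨c, d⟩⟩ h ⟨⟨a', b'⟩, ⟨c', d'⟩⟩ h' he
    rw [mem_coe, mem_coll] at h h'
    simp only [Prod.mk.injEq] at he h h' ⊢
    obtain ⟨rfl, rfl⟩ := he
    have hne : w.2 - w.1 ≠ 0 := by
      intro h0
      linarith
    have h1 : (w.2 - w.1) * (d : ℚ) = (w.2 - w.1) * d' := by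
      have e1 := h.2.1
      have e2 := h.2.2
      have e3 := h'.2.1
      have e4 := h'.2.2
      have e5 : (c : ℚ) = c' + d' - d := by linarith
      rw [e5] at e2
      linarith
    have h2 : (d : ℚ) = d' := mul_left_cancel₀ hne h1
    have h3 : (c : ℚ) = c' := by
      have e1 := h.2.1
      have e3 := h'.2.1
      linarith
    exact ⟨⟨rfl, rfl⟩, by exact_mod_cast h3, by exact_mod_cast h2⟩

theorem coll_energy (Q : ℚ → Finset ℤ) (T : ℕ) (w w' : ℚ × ℚ) (hw : w.1 < w.2)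
    (hw' : w'.1 < w'.2) (hne : w ≠ w') (h1 : (Q w'.1).card ≤ T) (h2 : (Q w'.2).card ≤ T) :
    2 * ((coll Q w w').card : ℝ) ^ 2 ≤
      T * (((Q w.1).addEnergy (Q w.1) : ℝ) + (Q w.2).addEnergy (Q w.2)) := by
  have hE : (0 : ℝ) ≤ ((Q w.1).addEnergy (Q w.1) : ℝ) + (Q w.2).addEnergy (Q w.2) := by positivity
  -- eliminate one of the slopes of `w'`
  by_cases hc : w'.2 ≠ w.1 ∧ w'.2 ≠ w.2
  · have h3 := three_var (Q w.1) (Q w.2) (Q w'.1) (w.1 - w'.2) (w.2 - w'.2) (w'.1 - w'.2)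
      (sub_ne_zero.2 hc.1.symm) (sub_ne_zero.2 hc.2.symm) (sub_ne_zero.2 hw'.ne)
    have h4 : (coll Q w w').card ≤ (((Q w.1 ×ˢ Q w.2) ×ˢ Q w'.1).filter fun q =>
        (w.1 - w'.2) * q.1.1 + (w.2 - w'.2) * q.1.2 = (w'.1 - w'.2) * (q.2 : ℚ)).card := by
      refine card_le_card_of_injOn (fun q => (q.1, q.2.1)) ?_ ?_
      · intro q hq
        rw [mem_coe, mem_coll] at hq
        simp only [mem_coe, mem_filter, mem_product]
        refine ⟨⟨hq.1.1, hq.1.2.1⟩, ?_⟩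
        have e1 := hq.2.1
        have e2 := hq.2.2
        have e3 : (q.2.2 : ℚ) = q.1.1 + q.1.2 - q.2.1 := by linarith
        rw [e3] at e2
        linarith
      · rintro ⟨⟨a, b⟩, ⟨c, d⟩⟩ h ⟨⟨a', b'⟩, ⟨c', d'⟩⟩ h' he
        rw [mem_coe, mem_coll] at h h'
        simp only [Prod.mk.injEq] at he h h' ⊢
        obtain ⟨⟨rfl, rfl⟩, rfl⟩ := he
        have e1 := h.2.1
        have e2 := h'.2.1
        have e3 : (d : ℚ) = d' := by linarith
        exact ⟨⟨rfl, rfl⟩, rfl, by exact_mod_cast e3⟩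
    have h5 : ((coll Q w w').card : ℝ) ≤ ((((Q w.1 ×ˢ Q w.2) ×ˢ Q w'.1).filter fun q =>
        (w.1 - w'.2) * q.1.1 + (w.2 - w'.2) * q.1.2 = (w'.1 - w'.2) * (q.2 : ℚ)).card : ℝ) := by
      exact_mod_cast h4
    have h6 := pow_le_pow_left₀ (Nat.cast_nonneg _) h5 2
    have h7 : ((Q w'.1).card : ℝ) ≤ T := by exact_mod_cast h1
    have h8 := mul_le_mul_of_nonneg_right h7 hE
    linarith
  · have hc' : w'.1 ≠ w.1 ∧ w'.1 ≠ w.2 := by
      by_contra hcon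
      have a1 : w'.2 = w.1 ∨ w'.2 = w.2 := by tauto
      have a2 : w'.1 = w.1 ∨ w'.1 = w.2 := by tauto
      rcases a1 with a1 | a1 <;> rcases a2 with a2 | a2
      · rw [a1, a2] at hw'; exact lt_irrefl _ hw'
      · rw [a1, a2] at hw'; exact lt_irrefl _ (hw.trans hw')
      · exact hne (Prod.ext a2.symm a1.symm)
      · rw [a1, a2] at hw'; exact lt_irrefl _ hw'
    have h3 := three_var (Q w.1) (Q w.2) (Q w'.2) (w.1 - w'.1) (w.2 - w'.1) (w'.2 - w'.1)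
      (sub_ne_zero.2 hc'.1.symm) (sub_ne_zero.2 hc'.2.symm) (sub_ne_zero.2 hw'.ne')
    have h4 : (coll Q w w').card ≤ (((Q w.1 ×ˢ Q w.2) ×ˢ Q w'.2).filter fun q =>
        (w.1 - w'.1) * q.1.1 + (w.2 - w'.1) * q.1.2 = (w'.2 - w'.1) * (q.2 : ℚ)).card := by
      refine card_le_card_of_injOn (fun q => (q.1, q.2.2)) ?_ ?_
      · intro q hq
        rw [mem_coe, mem_coll] at hq
        simp only [mem_coe, mem_filter, mem_product]
        refine ⟨⟨hq.1.1, hq.1.2.2⟩, ?_⟩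
        have e1 := hq.2.1
        have e2 := hq.2.2
        have e3 : (q.2.1 : ℚ) = q.1.1 + q.1.2 - q.2.2 := by linarith
        rw [e3] at e2
        linarith
      · rintro ⟨⟨a, b⟩, ⟨c, d⟩⟩ h ⟨⟨a', b'⟩, ⟨c', d'⟩⟩ h' he
        rw [mem_coe, mem_coll] at h h'
        simp only [Prod.mk.injEq] at he h h' ⊢
        obtain ⟨⟨rfl, rfl⟩, rfl⟩ := he
        have e1 := h.2.1
        have e2 := h'.2.1
        have e3 : (c : ℚ) = c' := by linarith
        exact ⟨⟨rfl, rfl⟩, by exact_mod_cast e3, rfl⟩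
    have h5 : ((coll Q w w').card : ℝ) ≤ ((((Q w.1 ×ˢ Q w.2) ×ˢ Q w'.2).filter fun q =>
        (w.1 - w'.1) * q.1.1 + (w.2 - w'.1) * q.1.2 = (w'.2 - w'.1) * (q.2 : ℚ)).card : ℝ) := by
      exact_mod_cast h4
    have h6 := pow_le_pow_left₀ (Nat.cast_nonneg _) h5 2
    have h7 : ((Q w'.2).card : ℝ) ≤ T := by exact_mod_cast h2
    have h8 := mul_le_mul_of_nonneg_right h7 hE
    linarith

/-- the pairs of slopes of a block -/
def prs (U : Finset ℚ) : Finset (ℚ × ℚ) := (U ×ˢ U).filter fun w => w.1 < w.2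

theorem mem_prs {U : Finset ℚ} {w : ℚ × ℚ} : w ∈ prs U ↔ (w.1 ∈ U ∧ w.2 ∈ U) ∧ w.1 < w.2 := by
  unfold prs
  rw [mem_filter, mem_product]

theorem card_prs (U : Finset ℚ) : 2 * (prs U).card + U.card = U.card ^ 2 := by
  classical
  have h1 : (prs U).card = ((U ×ˢ U).filter fun w => w.2 < w.1).card := by
    refine card_bij (fun w _ => (w.2, w.1)) ?_ ?_ ?_
    · intro w hw
      rw [mem_prs] at hw
      rw [mem_filter, mem_product]
      exact ⟨⟨hw.1.2, hw.1.1⟩, hw.2⟩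
    · rintro ⟨a, b⟩ _ ⟨a', b'⟩ _ h
      simp only [Prod.mk.injEq] at h ⊢
      exact ⟨h.2, h.1⟩
    · rintro ⟨a, b⟩ h
      rw [mem_filter, mem_product] at h
      exact ⟨(b, a), mem_prs.2 ⟨⟨h.1.2, h.1.1⟩, h.2⟩, rfl⟩
  have h2 : ((U ×ˢ U).filter fun w => w.1 = w.2).card = U.card := by
    refine (card_bij (fun l _ => (l, l)) ?_ ?_ ?_).symm
    · intro l hl
      rw [mem_filter, mem_product]
      exact ⟨⟨hl, hl⟩, rfl⟩
    · intro a _ b _ h
      simp only [Prod.mk.injEq] at h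
      exact h.1
    · rintro ⟨a, b⟩ h
      rw [mem_filter, mem_product] at h
      refine ⟨a, h.1.1, ?_⟩
      have : a = b := h.2
      rw [this]
  have h3 : U ×ˢ U = prs U ∪ (((U ×ˢ U).filter fun w => w.2 < w.1) ∪
      ((U ×ˢ U).filter fun w => w.1 = w.2)) := by
    ext w
    rw [mem_union, mem_union, mem_prs, mem_filter, mem_filter, mem_product]
    rcases lt_trichotomy w.1 w.2 with h | h | h <;> tauto
  have h4 : (U ×ˢ U).card = U.card ^ 2 := by rw [card_product, sq]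
  rw [← h4, h3, card_union_of_disjoint, card_union_of_disjoint, ← h1, h2]
  · ring
  · rw [disjoint_left]
    intro w hw hw'
    rw [mem_filter] at hw hw'
    exact absurd hw'.2 hw.2.ne'
  · rw [disjoint_left]
    intro w hw hw'
    rw [mem_prs] at hw
    rw [mem_union, mem_filter, mem_filter] at hw'
    rcases hw' with h | h
    · exact lt_asymm hw.2 h.2
    · exact hw.2.ne h.2

theorem no_many {w t P s : ℝ} (hw : 0 < w) (ht : 0 < t) (hs : 0 ≤ s) (h2 : (w * t) ^ 2 ≤ P * s)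
    (htot : s ≤ w * t + (w - 1) * t) (hP : P ≤ w * t / 2) : False := by
  have hwt : 0 < w * t := mul_pos hw ht
  have h3 : P * s ≤ (w * t / 2) * s := mul_le_mul_of_nonneg_right hP hs
  have h4 : (w * t / 2) * s ≤ (w * t / 2) * (w * t + (w - 1) * t) :=
    mul_le_mul_of_nonneg_left htot (by positivity)
  have h5 : (w * t / 2) * (w * t + (w - 1) * t) = (w * t) ^ 2 - w * t ^ 2 / 2 := by ring
  have h6 : 0 < w * t ^ 2 := by positivity
  linarith

/-- one block -/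
theorem block (U : Finset ℚ) (Q : ℚ → Finset ℤ) (T : ℕ) (hT : 1 ≤ T)
    (hQ : ∀ l ∈ U, (Q l).card = T) (P : Finset (ℚ × ℚ))
    (hP : ∀ w ∈ prs U, ∀ x ∈ Q w.1, ∀ x' ∈ Q w.2, pt w (x, x') ∈ P)
    (hU : (prs U).Nonempty)
    (hcard : 2 * (P.card : ℝ) ≤ (prs U).card * (T : ℝ) ^ 2) :
    ∃ l ∈ U, (T : ℝ) ^ 3 ≤ (U.card : ℝ) ^ 4 * ((Q l).addEnergy (Q l) : ℕ) := by
  classical
  set W := prs U with hW
  have hWc : (0 : ℝ) < W.card := by exact_mod_cast hU.card_pos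
  have hTr : (1 : ℝ) ≤ T := by exact_mod_cast hT
  -- the set of all sums
  set Ω : Finset ((ℚ × ℚ) × (ℤ × ℤ)) := W.biUnion fun w => (Q w.1 ×ˢ Q w.2).image fun q => (w, q)
    with hΩ
  have memΩ : ∀ z, z ∈ Ω ↔ z.1 ∈ W ∧ z.2.1 ∈ Q z.1.1 ∧ z.2.2 ∈ Q z.1.2 := by
    intro z
    rw [hΩ, mem_biUnion]
    constructor
    · rintro ⟨w, hw, hz⟩
      obtain ⟨q, hq, rfl⟩ := mem_image.1 hz
      rw [mem_product] at hq
      exact ⟨hw, hq⟩
    · rintro ⟨h1, h2⟩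
      exact ⟨z.1, h1, mem_image.2 ⟨z.2, mem_product.2 h2, rfl⟩⟩
  have cardΩ : (Ω.card : ℝ) = W.card * (T : ℝ) ^ 2 := by
    have h1 : Ω.card = ∑ w ∈ W, (Q w.1 ×ˢ Q w.2).card := by
      rw [hΩ, card_biUnion]
      · refine sum_congr rfl fun w _ => ?_
        rw [card_image_of_injective]
        intro a b h
        exact (Prod.mk.inj h).2
      · intro w _ w' _ hne
        show Disjoint _ _
        rw [disjoint_left]
        intro z hz hz'
        obtain ⟨q, _, rfl⟩ := mem_image.1 hz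
        obtain ⟨q', _, h⟩ := mem_image.1 hz'
        exact hne (Prod.mk.inj h).1.symm
    have h2 : ∀ w ∈ W, (Q w.1 ×ˢ Q w.2).card = T ^ 2 := by
      intro w hw
      rw [hW, mem_prs] at hw
      rw [card_product, hQ _ hw.1.1, hQ _ hw.1.2, sq]
    rw [h1, sum_congr rfl h2, sum_const, smul_eq_mul]
    push_cast
    ring
  have hcs := cs_map Ω P (fun z => pt z.1 z.2) (fun z hz => by
    rw [memΩ] at hz
    exact hP z.1 hz.1 _ hz.2.1 _ hz.2.2)
  -- the collisions, by pairs of slopes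
  have hcoll : ((Ω ×ˢ Ω).filter fun q => pt q.1.1 q.1.2 = pt q.2.1 q.2.2).card ≤
      ∑ w ∈ W, ∑ w' ∈ W, (coll Q w w').card := by
    have h1 : ((Ω ×ˢ Ω).filter fun q => pt q.1.1 q.1.2 = pt q.2.1 q.2.2) ⊆
        W.biUnion fun w => W.biUnion fun w' => (coll Q w w').image fun q => ((w, q.1), (w', q.2)) := by
      intro z hz
      rw [mem_filter, mem_product, memΩ, memΩ] at hz
      rw [mem_biUnion]
      refine ⟨z.1.1, hz.1.1.1, ?_⟩
      rw [mem_biUnion]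
      refine ⟨z.2.1, hz.1.2.1, ?_⟩
      rw [mem_image]
      refine ⟨(z.1.2, z.2.2), ?_, rfl⟩
      unfold coll
      rw [mem_filter, mem_product, mem_product, mem_product]
      exact ⟨⟨hz.1.1.2, hz.1.2.2⟩, hz.2⟩
    refine (card_le_card h1).trans (card_biUnion_le.trans ?_)
    refine sum_le_sum fun w _ => card_biUnion_le.trans ?_
    exact sum_le_sum fun w' _ => card_image_le
  -- some pair of different pairs of slopes has many collisions
  have hex : ∃ w ∈ W, ∃ w' ∈ W, w ≠ w' ∧ (T : ℝ) ^ 2 ≤ W.card * ((coll Q w w').card : ℝ) := by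
    by_contra hcon
    push Not at hcon
    have hdiag : ∀ w ∈ W, ((coll Q w w).card : ℝ) ≤ (T : ℝ) ^ 2 := by
      intro w hw
      have hw' := hw
      rw [hW, mem_prs] at hw'
      have h1 := coll_self Q w hw'.2
      rw [hQ _ hw'.1.1, hQ _ hw'.1.2] at h1
      calc ((coll Q w w).card : ℝ) ≤ ((T * T : ℕ) : ℝ) := by exact_mod_cast h1
        _ = _ := by push_cast; ring
    have hrow : ∀ w ∈ W, W.card * (∑ w' ∈ W, ((coll Q w w').card : ℝ)) ≤
        W.card * (T : ℝ) ^ 2 + (W.card - 1) * (T : ℝ) ^ 2 := by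
      intro w hw
      rw [← add_sum_erase _ _ hw, mul_add]
      refine add_le_add (mul_le_mul_of_nonneg_left (hdiag w hw) hWc.le) ?_
      rw [mul_sum]
      calc ∑ w' ∈ W.erase w, (W.card : ℝ) * ((coll Q w w').card : ℝ)
          ≤ ∑ _w' ∈ W.erase w, (T : ℝ) ^ 2 := sum_le_sum fun w' hw' =>
            (hcon w hw w' (mem_erase.1 hw').2 (mem_erase.1 hw').1.symm).le
        _ = (W.card - 1) * (T : ℝ) ^ 2 := by
            rw [sum_const, nsmul_eq_mul, card_erase_of_mem hw, Nat.cast_sub hU.card_pos]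
            push_cast; ring
    have htot : W.card * (∑ w ∈ W, ∑ w' ∈ W, ((coll Q w w').card : ℝ)) ≤
        W.card * (W.card * (T : ℝ) ^ 2 + (W.card - 1) * (T : ℝ) ^ 2) := by
      rw [mul_sum]
      calc ∑ w ∈ W, W.card * (∑ w' ∈ W, ((coll Q w w').card : ℝ)) ≤
          ∑ _w ∈ W, (W.card * (T : ℝ) ^ 2 + (W.card - 1) * (T : ℝ) ^ 2) := sum_le_sum hrow
        _ = _ := by rw [sum_const, nsmul_eq_mul]
    have htot' := le_of_mul_le_mul_left htot hWc
    have h1 : (((Ω ×ˢ Ω).filter fun q => pt q.1.1 q.1.2 = pt q.2.1 q.2.2).card : ℝ) ≤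
        ∑ w ∈ W, ∑ w' ∈ W, ((coll Q w w').card : ℝ) := by exact_mod_cast hcoll
    have h2 : (W.card * (T : ℝ) ^ 2) ^ 2 ≤ P.card *
        (∑ w ∈ W, ∑ w' ∈ W, ((coll Q w w').card : ℝ)) := by
      rw [← cardΩ]
      exact hcs.trans (mul_le_mul_of_nonneg_left h1 (Nat.cast_nonneg _))
    have hT2 : (0 : ℝ) < (T : ℝ) ^ 2 := by positivity
    exact no_many hWc hT2 (sum_nonneg fun w _ => sum_nonneg fun w' _ => Nat.cast_nonneg _) h2 htot'
      (by linarith)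
  obtain ⟨w, hw, w', hw', hne, hN⟩ := hex
  have hw2 := hw
  have hw2' := hw'
  rw [hW, mem_prs] at hw2 hw2'
  have hE := coll_energy Q T w w' hw2.2 hw2'.2 hne (hQ _ hw2'.1.1).le (hQ _ hw2'.1.2).le
  have hWU : (W.card : ℝ) ≤ (U.card : ℝ) ^ 2 := by
    have h1 := card_prs U
    rw [← hW] at h1
    have : W.card ≤ U.card ^ 2 := by omega
    exact_mod_cast this
  -- the larger of the two energies
  obtain ⟨l, hl, hlE⟩ : ∃ l ∈ U, ((coll Q w w').card : ℝ) ^ 2 ≤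
      T * ((Q l).addEnergy (Q l) : ℝ) := by
    rcases le_total ((Q w.1).addEnergy (Q w.1)) ((Q w.2).addEnergy (Q w.2)) with h | h
    · refine ⟨w.2, hw2.1.2, ?_⟩
      have h' : ((Q w.1).addEnergy (Q w.1) : ℝ) ≤ (Q w.2).addEnergy (Q w.2) := by exact_mod_cast h
      nlinarith
    · refine ⟨w.1, hw2.1.1, ?_⟩
      have h' : ((Q w.2).addEnergy (Q w.2) : ℝ) ≤ (Q w.1).addEnergy (Q w.1) := by exact_mod_cast h
      nlinarith
  refine ⟨l, hl, ?_⟩
  have hT0 : (0 : ℝ) < T := by linarith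
  have h1 : (T : ℝ) ^ 4 ≤ ((U.card : ℝ) ^ 2) ^ 2 * (T * ((Q l).addEnergy (Q l) : ℝ)) := by
    calc (T : ℝ) ^ 4 = ((T : ℝ) ^ 2) ^ 2 := by ring
      _ ≤ (W.card * ((coll Q w w').card : ℝ)) ^ 2 := pow_le_pow_left₀ (by positivity) hN 2
      _ = (W.card : ℝ) ^ 2 * ((coll Q w w').card : ℝ) ^ 2 := by ring
      _ ≤ ((U.card : ℝ) ^ 2) ^ 2 * (T * ((Q l).addEnergy (Q l) : ℝ)) :=
          mul_le_mul (pow_le_pow_left₀ hWc.le hWU 2) hlE (by positivity) (by positivity)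
  have h2 : (T : ℝ) * (T : ℝ) ^ 3 ≤ T * ((U.card : ℝ) ^ 4 * ((Q l).addEnergy (Q l) : ℕ)) := by
    calc (T : ℝ) * (T : ℝ) ^ 3 = (T : ℝ) ^ 4 := by ring
      _ ≤ _ := h1
      _ = _ := by ring
  exact le_of_mul_le_mul_left h2 hT0

end Pool.Agent.Zk30
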