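import Pool.Agent.Zk30.Block

/-!
# Many slopes of large additive energy
-/

set_option autoImplicit false

namespace Pool.Agent.Zk30

open Finset
open scoped Pointwise

/-- the number of smaller slopes -/
def rk (S : Finset ℚ) (l : ℚ) : ℕ := (S.filter fun m => m < l).card

theorem rk_lt {S : Finset ℚ} {l m : ℚ} (hl : l ∈ S) (h : l < m) : rk S l < rk S m := by
  unfold rk
  apply card_lt_card
  rw [ssubset_iff_of_subset]
  · refine ⟨l, mem_filter.2 ⟨hl, h⟩, fun hl' => ?_⟩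
    exact lt_irrefl _ (mem_filter.1 hl').2
  · intro x hx
    rw [mem_filter] at hx ⊢
    exact ⟨hx.1, hx.2.trans h⟩

theorem rk_lt_card {S : Finset ℚ} {l : ℚ} (hl : l ∈ S) : rk S l < S.card := by
  unfold rk
  apply card_lt_card
  rw [ssubset_iff_of_subset (filter_subset _ _)]
  exact ⟨l, hl, fun h => lt_irrefl _ (mem_filter.1 h).2⟩

theorem rk_injOn (S : Finset ℚ) : Set.InjOn (rk S) S := by
  intro l hl m hm h
  rcases lt_trichotomy l m with h' | h' | h'
  · exact absurd h (rk_lt hl h').ne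
  · exact h'
  · exact absurd h (rk_lt hm h').ne'

theorem image_rk (S : Finset ℚ) : S.image (rk S) = range S.card := by
  apply eq_of_subset_of_card_le
  · intro r hr
    obtain ⟨l, hl, rfl⟩ := mem_image.1 hr
    rw [mem_range]
    exact rk_lt_card hl
  · rw [card_range, card_image_of_injOn (rk_injOn S)]

/-- the blocks -/
def blk (S : Finset ℚ) (K i : ℕ) : Finset ℚ := S.filter fun l => rk S l / K = i

theorem mem_blk {S : Finset ℚ} {K i : ℕ} {l : ℚ} : l ∈ blk S K i ↔ l ∈ S ∧ rk S l / K = i :=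
  mem_filter

theorem card_blk (S : Finset ℚ) (K i : ℕ) (hK : 0 < K) (hi : i < S.card / K) :
    (blk S K i).card = K := by
  have h1 : (blk S K i).image (rk S) = Ico (i * K) ((i + 1) * K) := by
    ext r
    rw [mem_image, mem_Ico]
    constructor
    · rintro ⟨l, hl, rfl⟩
      rw [mem_blk] at hl
      rw [← hl.2]
      refine ⟨Nat.div_mul_le_self _ _, ?_⟩
      have := Nat.lt_mul_div_succ (rk S l) hK
      rwa [Nat.mul_comm] at this
    · rintro ⟨h1, h2⟩
      have h3 : r ∈ S.image (rk S) := by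
        rw [image_rk, mem_range]
        have h4 : (i + 1) * K ≤ S.card := by
          calc (i + 1) * K ≤ (S.card / K) * K := Nat.mul_le_mul_right _ hi
            _ ≤ S.card := Nat.div_mul_le_self _ _
        omega
      obtain ⟨l, hl, rfl⟩ := mem_image.1 h3
      exact ⟨l, mem_blk.2 ⟨hl, Nat.div_eq_of_lt_le h1 h2⟩, rfl⟩
  have h2 : ((blk S K i).image (rk S)).card = (blk S K i).card :=
    card_image_of_injOn ((rk_injOn S).mono (filter_subset _ _))
  rw [← h2, h1, Nat.card_Ico]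
  rw [Nat.add_mul, one_mul]
  omega

/-- the points of the sector of a block -/
def sec (G : Finset (ℚ × ℚ)) (U : Finset ℚ) : Finset (ℚ × ℚ) :=
  open Classical in G.filter fun p => (∃ a ∈ U, a * p.1 < p.2) ∧ (∃ b ∈ U, p.2 < b * p.1)

theorem mem_sec {G : Finset (ℚ × ℚ)} {U : Finset ℚ} {p : ℚ × ℚ} :
    p ∈ sec G U ↔ p ∈ G ∧ (∃ a ∈ U, a * p.1 < p.2) ∧ (∃ b ∈ U, p.2 < b * p.1) := by
  unfold sec
  rw [mem_filter]

theorem sec_disjoint (G : Finset (ℚ × ℚ)) (hG : ∀ p ∈ G, 0 < p.1) (S : Finset ℚ) (K i j : ℕ)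
    (hij : i < j) : Disjoint (sec G (blk S K i)) (sec G (blk S K j)) := by
  rw [disjoint_left]
  intro p hp hp'
  rw [mem_sec] at hp hp'
  obtain ⟨hpG, _, b, hb, hb'⟩ := hp
  obtain ⟨_, ⟨a, ha, ha'⟩, _⟩ := hp'
  rw [mem_blk] at ha hb
  have h1 : rk S b < rk S a := by
    by_contra hcon
    push Not at hcon
    have := Nat.div_le_div_right (c := K) hcon
    omega
  have h2 : b < a := by
    by_contra hcon
    push Not at hcon
    rcases hcon.eq_or_lt with h | h
    · rw [h] at h1; exact lt_irrefl _ h1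
    · exact absurd h1 (rk_lt ha.1 h).le.not_gt
  have h3 := hG p hpG
  have h4 : a * p.1 < b * p.1 := ha'.trans hb'
  have h5 := lt_of_mul_lt_mul_right h4 h3.le
  exact lt_asymm h2 h5

/-- the sums, as rational points -/
def grid (X Y : Finset ℤ) : Finset (ℚ × ℚ) :=
  ((X + X) ×ˢ (Y + Y)).image fun p => ((p.1 : ℚ), (p.2 : ℚ))

theorem card_grid (X Y : Finset ℤ) : (grid X Y).card ≤ (X + X).card * (Y + Y).card := by
  rw [← card_product]
  exact card_image_le

theorem grid_pos {X Y : Finset ℤ} (hX : ∀ x ∈ X, 0 < x) : ∀ p ∈ grid X Y, 0 < p.1 := by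
  intro p hp
  obtain ⟨q, hq, rfl⟩ := mem_image.1 hp
  rw [mem_product] at hq
  obtain ⟨x, hx, x', hx', h⟩ := mem_add.1 hq.1
  have := hX x hx
  have := hX x' hx'
  have h2 : 0 < q.1 := by omega
  show (0 : ℚ) < (q.1 : ℚ)
  exact_mod_cast h2

theorem pt_mem {X Y : Finset ℤ} (hX : ∀ x ∈ X, 0 < x) {S : Finset ℚ} {Q : ℚ → Finset ℤ}
    (hQX : ∀ l ∈ S, Q l ⊆ X) (hQY : ∀ l ∈ S, ∀ x ∈ Q l, ∃ y ∈ Y, (y : ℚ) = l * x)
    {U : Finset ℚ} (hU : U ⊆ S) {w : ℚ × ℚ} (hw : w ∈ prs U) {x x' : ℤ} (hx : x ∈ Q w.1)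
    (hx' : x' ∈ Q w.2) : pt w (x, x') ∈ sec (grid X Y) U := by
  rw [mem_prs] at hw
  obtain ⟨⟨h1, h2⟩, h3⟩ := hw
  have hxX := hQX _ (hU h1) hx
  have hxX' := hQX _ (hU h2) hx'
  obtain ⟨y, hy, hxy⟩ := hQY _ (hU h1) x hx
  obtain ⟨y', hy', hxy'⟩ := hQY _ (hU h2) x' hx'
  have p1 : (0 : ℚ) < x := by exact_mod_cast hX x hxX
  have p2 : (0 : ℚ) < x' := by exact_mod_cast hX x' hxX'
  rw [mem_sec]
  refine ⟨?_, ⟨w.1, h1, ?_⟩, ⟨w.2, h2, ?_⟩⟩
  · unfold grid
    rw [mem_image]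
    refine ⟨(x + x', y + y'), mem_product.2 ⟨add_mem_add hxX hxX', add_mem_add hy hy'⟩, ?_⟩
    unfold pt
    push_cast
    rw [hxy, hxy']
  · unfold pt
    simp only
    nlinarith
  · unfold pt
    simp only
    nlinarith

theorem clusters (X Y : Finset ℤ) (hX : ∀ x ∈ X, 0 < x) (S : Finset ℚ)
    (Q : ℚ → Finset ℤ) (T : ℕ) (hT : 1 ≤ T) (hQX : ∀ l ∈ S, Q l ⊆ X)
    (hQY : ∀ l ∈ S, ∀ x ∈ Q l, ∃ y ∈ Y, (y : ℚ) = l * x) (hQ : ∀ l ∈ S, (Q l).card = T)
    (K : ℕ) (hK : 2 ≤ K) (hKS : K ≤ S.card) (M : ℝ)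
    (hM : ((X + X).card : ℝ) * (Y + Y).card ≤ M * (S.card * (T : ℝ) ^ 2))
    (hKM : 16 * M + 1 ≤ K) :
    ∃ S' ⊆ S, (S.card : ℝ) ≤ 4 * K * S'.card ∧
      ∀ l ∈ S', (T : ℝ) ^ 3 ≤ (K : ℝ) ^ 4 * ((Q l).addEnergy (Q l) : ℕ) := by
  classical
  obtain ⟨n, hn⟩ : ∃ n, n = S.card / K := ⟨_, rfl⟩
  have hK0 : 0 < K := by omega
  have hn1 : 1 ≤ n := by rw [hn]; exact (Nat.one_le_div_iff hK0).2 hKS
  have hnK : (S.card : ℝ) ≤ 2 * n * K := by
    have h1 := Nat.lt_mul_div_succ S.card hK0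
    rw [← hn, Nat.mul_comm] at h1
    have h2 : S.card ≤ 2 * n * K := by nlinarith
    exact_mod_cast h2
  obtain ⟨G, hG⟩ : ∃ G, G = grid X Y := ⟨_, rfl⟩
  have hGpos : ∀ p ∈ G, 0 < p.1 := by rw [hG]; exact grid_pos hX
  obtain ⟨σ, hσ⟩ : ∃ σ : ℝ, σ = ((X + X).card : ℝ) * (Y + Y).card := ⟨_, rfl⟩
  have hGσ : (G.card : ℝ) ≤ σ := by rw [hσ, hG]; exact_mod_cast card_grid X Y
  rw [← hσ] at hM
  have hsum : ∑ i ∈ range n, ((sec G (blk S K i)).card : ℝ) ≤ σ := by
    have h1 : ∑ i ∈ range n, (sec G (blk S K i)).card ≤ G.card := by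
      rw [← card_biUnion]
      · apply card_le_card
        intro p hp
        obtain ⟨i, _, hi⟩ := mem_biUnion.1 hp
        exact (mem_sec.1 hi).1
      · intro i _ j _ hij
        show Disjoint _ _
        rcases lt_or_gt_of_ne hij with h | h
        · exact sec_disjoint G hGpos S K i j h
        · exact (sec_disjoint G hGpos S K j i h).symm
    exact le_trans (by exact_mod_cast h1) hGσ
  -- the good blocks
  obtain ⟨g, hg⟩ : ∃ g : Finset ℕ, g = (range n).filter fun i =>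
    ((sec G (blk S K i)).card : ℝ) * n ≤ 2 * σ := ⟨_, rfl⟩
  have hσ0 : 0 ≤ σ := by rw [hσ]; positivity
  have hnr : (1 : ℝ) ≤ n := by exact_mod_cast hn1
  have hTr : (1 : ℝ) ≤ T := by exact_mod_cast hT
  have hSc : (0 : ℝ) < S.card := by
    have : 0 < S.card := by omega
    exact_mod_cast this
  have hgood : (n : ℝ) ≤ 2 * g.card := by
    by_cases hσz : σ = 0
    · -- everything is good
      have h1 : g = range n := by
        rw [hg, filter_eq_self]
        intro i hi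
        rw [hσz, mul_zero]
        have h2 : ((sec G (blk S K i)).card : ℝ) ≤ 0 := by
          refine (single_le_sum (f := fun i => ((sec G (blk S K i)).card : ℝ))
            (fun j _ => Nat.cast_nonneg _) hi).trans ?_
          rw [hσz] at hsum
          exact hsum
        nlinarith
      rw [h1, card_range]
      linarith
    · have hσp : 0 < σ := lt_of_le_of_ne hσ0 (Ne.symm hσz)
      set b := (range n).filter fun i => ¬ ((sec G (blk S K i)).card : ℝ) * n ≤ 2 * σ with hb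
      have h1 : g.card + b.card = n := by
        rw [hg, hb, card_filter_add_card_filter_not, card_range]
      have h2 : (b.card : ℝ) * (2 * σ) ≤ σ * n := by
        calc (b.card : ℝ) * (2 * σ) = ∑ _i ∈ b, (2 * σ) := by rw [sum_const, nsmul_eq_mul]
          _ ≤ ∑ i ∈ b, ((sec G (blk S K i)).card : ℝ) * n :=
              sum_le_sum fun i hi => (not_le.1 (mem_filter.1 hi).2).le
          _ ≤ ∑ i ∈ range n, ((sec G (blk S K i)).card : ℝ) * n :=
              sum_le_sum_of_subset_of_nonneg (filter_subset _ _) fun i _ _ => by positivity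
          _ ≤ σ * n := by
              rw [← sum_mul]
              exact mul_le_mul_of_nonneg_right hsum (by linarith)
      have h3 : (2 * b.card : ℝ) ≤ n := by
        have : σ * (2 * b.card : ℝ) ≤ σ * n := by linarith
        exact le_of_mul_le_mul_left this hσp
      have h4 : (g.card : ℝ) + b.card = n := by exact_mod_cast h1
      linarith
  -- one slope in each good block
  have hone : ∀ i ∈ g, ∃ l ∈ blk S K i,
      (T : ℝ) ^ 3 ≤ (K : ℝ) ^ 4 * ((Q l).addEnergy (Q l) : ℕ) := by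
    intro i hi
    rw [hg, mem_filter, mem_range] at hi
    have hUc : (blk S K i).card = K := card_blk S K i hK0 (by rw [← hn]; exact hi.1)
    have hUS : blk S K i ⊆ S := filter_subset _ _
    have hp := card_prs (blk S K i)
    rw [hUc] at hp
    have hpr : 2 * ((prs (blk S K i)).card : ℝ) + K = (K : ℝ) ^ 2 := by exact_mod_cast hp
    have hKr : (2 : ℝ) ≤ K := by exact_mod_cast hK
    have hprpos : (prs (blk S K i)).Nonempty := by
      rw [← card_pos]
      have h1 : 0 < ((prs (blk S K i)).card : ℝ) := by nlinarith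
      exact_mod_cast h1
    have h2 : 2 * ((sec G (blk S K i)).card : ℝ) ≤ (prs (blk S K i)).card * (T : ℝ) ^ 2 := by
      have hT2 : (0 : ℝ) < (T : ℝ) ^ 2 := by positivity
      -- `|P| n ≤ 2 σ ≤ 2 M |S| T² ≤ 4 M n K T²`
      have h3 : ((sec G (blk S K i)).card : ℝ) * n ≤ (4 * M * K * (T : ℝ) ^ 2) * n := by
        by_cases hM0 : 0 ≤ M
        · have h4 : M * (S.card * (T : ℝ) ^ 2) ≤ M * ((2 * n * K) * (T : ℝ) ^ 2) :=
            mul_le_mul_of_nonneg_left (mul_le_mul_of_nonneg_right hnK hT2.le) hM0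
          calc ((sec G (blk S K i)).card : ℝ) * n ≤ 2 * σ := hi.2
            _ ≤ 2 * (M * ((2 * n * K) * (T : ℝ) ^ 2)) := by linarith
            _ = _ := by ring
        · push Not at hM0
          have h5 : 0 < S.card * (T : ℝ) ^ 2 := by positivity
          have h6 : M * (S.card * (T : ℝ) ^ 2) < 0 := mul_neg_of_neg_of_pos hM0 h5
          linarith
      have h4 := le_of_mul_le_mul_right h3 (by linarith)
      have h5 : 8 * M * K ≤ (prs (blk S K i)).card := by nlinarith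
      have h6 := mul_le_mul_of_nonneg_right h5 hT2.le
      linarith
    obtain ⟨l, hl, hlE⟩ := block (blk S K i) Q T hT (fun l hl => hQ l (hUS hl))
      (sec G (blk S K i)) (fun w hw x hx x' hx' => by
        rw [hG]
        exact pt_mem hX hQX hQY hUS hw hx hx') hprpos h2
    rw [hUc] at hlE
    exact ⟨l, hl, hlE⟩
  refine ⟨S.filter fun l => (T : ℝ) ^ 3 ≤ (K : ℝ) ^ 4 * ((Q l).addEnergy (Q l) : ℕ),
    filter_subset _ _, ?_, fun l hl => (mem_filter.1 hl).2⟩
  have h1 : g ⊆ (S.filter fun l => (T : ℝ) ^ 3 ≤ (K : ℝ) ^ 4 *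
      ((Q l).addEnergy (Q l) : ℕ)).image fun l => rk S l / K := by
    intro i hi
    obtain ⟨l, hl, hlE⟩ := hone i hi
    rw [mem_blk] at hl
    exact mem_image.2 ⟨l, mem_filter.2 ⟨hl.1, hlE⟩, hl.2⟩
  have h2 := (card_le_card h1).trans card_image_le
  have h3 : (g.card : ℝ) ≤ (S.filter fun l => (T : ℝ) ^ 3 ≤ (K : ℝ) ^ 4 *
      ((Q l).addEnergy (Q l) : ℕ)).card := by exact_mod_cast h2
  have hKr : (0 : ℝ) < K := by exact_mod_cast hK0
  calc (S.card : ℝ) ≤ 2 * n * K := hnK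
    _ ≤ 2 * (2 * g.card) * K := by
        apply mul_le_mul_of_nonneg_right _ hKr.le
        linarith
    _ = 4 * K * g.card := by ring
    _ ≤ _ := mul_le_mul_of_nonneg_left h3 (by positivity)

end Pool.Agent.Zk30
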