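import Mathlib

/-!
# Counting lemmas: pairs with equal images, linear equations in three variables
-/

set_option autoImplicit false

namespace Pool.Agent.Zk30

open Finset

/-- Cauchy and Schwarz for a map -/
theorem cs_map {α β : Type*} [DecidableEq β] (Ω : Finset α) (P : Finset β) (φ : α → β)
    (hφ : ∀ w ∈ Ω, φ w ∈ P) :
    (Ω.card : ℝ) ^ 2 ≤ P.card * (((Ω ×ˢ Ω).filter fun q => φ q.1 = φ q.2).card : ℝ) := by
  classical
  have h1 : (Ω.card : ℝ) = ∑ c ∈ P, ((Ω.filter fun w => φ w = c).card : ℝ) := by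
    rw [card_eq_sum_card_fiberwise (f := φ) (t := P) (fun w hw => hφ w hw)]
    push_cast
    rfl
  have h2 : (((Ω ×ˢ Ω).filter fun q => φ q.1 = φ q.2).card : ℝ) =
      ∑ c ∈ P, ((Ω.filter fun w => φ w = c).card : ℝ) ^ 2 := by
    rw [card_eq_sum_card_fiberwise (f := fun q => φ q.1) (t := P) (fun q hq => by
      rw [mem_coe, mem_filter, mem_product] at hq
      exact hφ _ hq.1.1)]
    push_cast
    refine sum_congr rfl fun c _ => ?_
    rw [sq, ← Nat.cast_mul, ← card_product]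
    congr 2
    ext q
    simp only [mem_filter, mem_product]
    constructor
    · rintro ⟨⟨⟨a, b⟩, h⟩, h'⟩
      exact ⟨⟨a, h'⟩, b, h ▸ h'⟩
    · rintro ⟨⟨a, h⟩, b, h'⟩
      exact ⟨⟨⟨a, b⟩, h.trans h'.symm⟩, h⟩
  rw [h1, h2]
  exact sq_sum_le_card_mul_sum_sq

/-- pairs with equal values of two maps -/
theorem pairs_le {α β γ : Type*} [DecidableEq γ] (P : Finset α) (P' : Finset β) (f : α → γ)
    (g : β → γ) :
    2 * ((P ×ˢ P').filter fun q => f q.1 = g q.2).card ≤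
      ((P ×ˢ P).filter fun q => f q.1 = f q.2).card +
        ((P' ×ˢ P').filter fun q => g q.1 = g q.2).card := by
  classical
  set U := P.image f ∪ P'.image g with hU
  have h1 : ((P ×ˢ P').filter fun q => f q.1 = g q.2).card =
      ∑ c ∈ U, (P.filter fun w => f w = c).card * (P'.filter fun w => g w = c).card := by
    rw [card_eq_sum_card_fiberwise (f := fun q => f q.1) (t := U) (fun q hq => by
      rw [mem_coe, mem_filter, mem_product] at hq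
      rw [mem_coe, hU, mem_union]
      exact Or.inl (mem_image_of_mem _ hq.1.1))]
    refine sum_congr rfl fun c _ => ?_
    rw [← card_product]
    congr 1
    ext q
    simp only [mem_filter, mem_product]
    constructor
    · rintro ⟨⟨⟨a, b⟩, h⟩, h'⟩
      exact ⟨⟨a, h'⟩, b, h ▸ h'⟩
    · rintro ⟨⟨a, h⟩, b, h'⟩
      exact ⟨⟨⟨a, b⟩, h.trans h'.symm⟩, h⟩
  have h2 : ((P ×ˢ P).filter fun q => f q.1 = f q.2).card =
      ∑ c ∈ U, (P.filter fun w => f w = c).card * (P.filter fun w => f w = c).card := by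
    rw [card_eq_sum_card_fiberwise (f := fun q => f q.1) (t := U) (fun q hq => by
      rw [mem_coe, mem_filter, mem_product] at hq
      rw [mem_coe, hU, mem_union]
      exact Or.inl (mem_image_of_mem _ hq.1.1))]
    refine sum_congr rfl fun c _ => ?_
    rw [← card_product]
    congr 1
    ext q
    simp only [mem_filter, mem_product]
    constructor
    · rintro ⟨⟨⟨a, b⟩, h⟩, h'⟩
      exact ⟨⟨a, h'⟩, b, h ▸ h'⟩
    · rintro ⟨⟨a, h⟩, b, h'⟩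
      exact ⟨⟨⟨a, b⟩, h.trans h'.symm⟩, h⟩
  have h3 : ((P' ×ˢ P').filter fun q => g q.1 = g q.2).card =
      ∑ c ∈ U, (P'.filter fun w => g w = c).card * (P'.filter fun w => g w = c).card := by
    rw [card_eq_sum_card_fiberwise (f := fun q => g q.1) (t := U) (fun q hq => by
      rw [mem_coe, mem_filter, mem_product] at hq
      rw [mem_coe, hU, mem_union]
      exact Or.inr (mem_image_of_mem _ hq.1.1))]
    refine sum_congr rfl fun c _ => ?_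
    rw [← card_product]
    congr 1
    ext q
    simp only [mem_filter, mem_product]
    constructor
    · rintro ⟨⟨⟨a, b⟩, h⟩, h'⟩
      exact ⟨⟨a, h'⟩, b, h ▸ h'⟩
    · rintro ⟨⟨a, h⟩, b, h'⟩
      exact ⟨⟨⟨a, b⟩, h.trans h'.symm⟩, h⟩
  rw [h1, h2, h3, mul_sum, ← sum_add_distrib]
  refine sum_le_sum fun c _ => ?_
  have := two_mul_le_add_sq ((P.filter fun w => f w = c).card : ℤ)
    ((P'.filter fun w => g w = c).card : ℤ)
  zify
  nlinarith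

/-- the energy as the number of equal differences -/
theorem diff_energy (Q : Finset ℤ) (α : ℚ) (hα : α ≠ 0) :
    (((Q ×ˢ Q) ×ˢ (Q ×ˢ Q)).filter fun q => α * ((q.1.1 : ℚ) - q.1.2) =
      α * ((q.2.1 : ℚ) - q.2.2)).card ≤ Q.addEnergy Q := by
  classical
  unfold Finset.addEnergy
  refine card_le_card_of_injOn (fun q => ((q.1.1, q.2.1), (q.2.2, q.1.2))) ?_ ?_
  · intro q hq
    simp only [mem_coe, mem_filter, mem_product] at hq ⊢
    refine ⟨⟨⟨hq.1.1.1, hq.1.2.1⟩, hq.1.2.2, hq.1.1.2⟩, ?_⟩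
    have h1 := mul_left_cancel₀ hα hq.2
    have h2 : (q.1.1 : ℚ) + q.2.2 = q.2.1 + q.1.2 := by linarith
    exact_mod_cast h2
  · rintro ⟨⟨a, b⟩, ⟨c, d⟩⟩ _ ⟨⟨a', b'⟩, ⟨c', d'⟩⟩ _ h
    simp only [Prod.mk.injEq] at h ⊢
    tauto

/-- a linear equation in three variables -/
theorem three_var (Q1 Q2 Q3 : Finset ℤ) (α β γ : ℚ) (hα : α ≠ 0) (hβ : β ≠ 0) (hγ : γ ≠ 0) :
    2 * ((((Q1 ×ˢ Q2) ×ˢ Q3).filter fun q => α * q.1.1 + β * q.1.2 = γ * (q.2 : ℚ)).card : ℝ) ^ 2 ≤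
      Q3.card * ((Q1.addEnergy Q1 : ℝ) + Q2.addEnergy Q2) := by
  classical
  set L : ℤ × ℤ → ℚ := fun q => α * q.1 + β * q.2 with hL
  set Ω := ((Q1 ×ˢ Q2) ×ˢ Q3).filter fun q => α * q.1.1 + β * q.1.2 = γ * (q.2 : ℚ) with hΩ
  have h1 := cs_map Ω Q3 (fun q => q.2) (fun w hw => by
    rw [hΩ, mem_filter, mem_product] at hw
    exact hw.1.2)
  have h2 : (((Ω ×ˢ Ω).filter fun q => q.1.2 = q.2.2).card) ≤
      (((Q1 ×ˢ Q2) ×ˢ (Q1 ×ˢ Q2)).filter fun q => L q.1 = L q.2).card := by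
    refine card_le_card_of_injOn (fun q => (q.1.1, q.2.1)) ?_ ?_
    · intro q hq
      simp only [hΩ, mem_coe, mem_filter, mem_product] at hq ⊢
      refine ⟨⟨hq.1.1.1.1, hq.1.2.1.1⟩, ?_⟩
      rw [hL]
      simp only
      rw [hq.1.1.2, hq.1.2.2, hq.2]
    · rintro ⟨⟨⟨a, b⟩, c⟩, ⟨⟨a', b'⟩, c'⟩⟩ h ⟨⟨⟨x, y⟩, z⟩, ⟨⟨x', y'⟩, z'⟩⟩ h' he
      simp only [hΩ, mem_coe, mem_filter, mem_product, Prod.mk.injEq] at h h' he ⊢
      obtain ⟨⟨⟨_, h1⟩, ⟨_, h2⟩⟩, h3⟩ := h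
      obtain ⟨⟨⟨_, h1'⟩, ⟨_, h2'⟩⟩, h3'⟩ := h'
      obtain ⟨⟨e1, e2⟩, e3, e4⟩ := he
      have h5 : (c : ℚ) = z := by
        rw [e1, e2, h1'] at h1
        exact (mul_left_cancel₀ hγ h1).symm
      have h6 : (c' : ℚ) = z' := by
        rw [e3, e4, h2'] at h2
        exact (mul_left_cancel₀ hγ h2).symm
      refine ⟨⟨⟨e1, e2⟩, by exact_mod_cast h5⟩, ⟨e3, e4⟩, by exact_mod_cast h6⟩
  have h3 : (((Q1 ×ˢ Q2) ×ˢ (Q1 ×ˢ Q2)).filter fun q => L q.1 = L q.2).card ≤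
      (((Q1 ×ˢ Q1) ×ˢ (Q2 ×ˢ Q2)).filter fun q => α * ((q.1.1 : ℚ) - q.1.2) =
        β * ((q.2.1 : ℚ) - q.2.2)).card := by
    refine card_le_card_of_injOn (fun q => ((q.1.1, q.2.1), (q.2.2, q.1.2))) ?_ ?_
    · intro q hq
      simp only [hL, mem_coe, mem_filter, mem_product] at hq ⊢
      refine ⟨⟨⟨hq.1.1.1, hq.1.2.1⟩, hq.1.2.2, hq.1.1.2⟩, ?_⟩
      linarith [hq.2]
    · rintro ⟨⟨a, b⟩, ⟨c, d⟩⟩ _ ⟨⟨a', b'⟩, ⟨c', d'⟩⟩ _ h
      simp only [Prod.mk.injEq] at h ⊢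
      tauto
  have h4 := pairs_le (Q1 ×ˢ Q1) (Q2 ×ˢ Q2) (fun q => α * ((q.1 : ℚ) - q.2))
    (fun q => β * ((q.1 : ℚ) - q.2))
  have h5 := diff_energy Q1 α hα
  have h6 := diff_energy Q2 β hβ
  have h7 : 2 * ((Ω ×ˢ Ω).filter fun q => q.1.2 = q.2.2).card ≤
      Q1.addEnergy Q1 + Q2.addEnergy Q2 := by
    have := h2.trans h3
    omega
  have h8 : 2 * (((Ω ×ˢ Ω).filter fun q => q.1.2 = q.2.2).card : ℝ) ≤
      (Q1.addEnergy Q1 : ℝ) + Q2.addEnergy Q2 := by exact_mod_cast h7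
  calc 2 * (Ω.card : ℝ) ^ 2 ≤ 2 * (Q3.card * (((Ω ×ˢ Ω).filter fun q => q.1.2 = q.2.2).card : ℝ)) :=
        by linarith
    _ = Q3.card * (2 * (((Ω ×ˢ Ω).filter fun q => q.1.2 = q.2.2).card : ℝ)) := by ring
    _ ≤ _ := mul_le_mul_of_nonneg_left h8 (Nat.cast_nonneg _)

end Pool.Agent.Zk30
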