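import Pool.Agent.Zk30.Sys

/-!
# Structured fibres carry only the trivial multiplicative energy
-/

set_option autoImplicit false

namespace Pool.Agent.Zk30

open Finset H633R5.FS
open scoped Pointwise

theorem card_le_right {Y : Finset ℤ} (hY : ∀ y ∈ Y, y ≠ 0) {l : ℚ}
    {B : Finset ℤ} (hB : B.Nonempty)
    (hBY : ∀ x ∈ B, ∃ y ∈ Y, (y : ℚ) = l * x) : B.card ≤ Y.card := by
  classical
  choose! f hf hf' using hBY
  have hl : l ≠ 0 := by
    obtain ⟨x, hx⟩ := hB
    rintro rfl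
    have h1 := hf' x hx
    rw [zero_mul] at h1
    exact hY _ (hf x hx) (by exact_mod_cast h1)
  refine card_le_card_of_injOn f (fun x hx => hf x hx) ?_
  intro x hx x' hx' hxx
  have h1 := hf' x hx
  have h2 := hf' x' hx'
  have h3 : (f x : ℚ) = f x' := by rw [hxx]
  rw [h1, h2] at h3
  exact_mod_cast mul_left_cancel₀ hl h3

theorem log_one_add_log {r t : ℝ} (hr : 0 < r) (ht : 1 ≤ t) :
    Real.log (1 + Real.log t) ≤ Real.log (1 + 1 / r) + r * Real.log t := by
  have h1 := Real.log_le_rpow_div (by linarith : (0 : ℝ) ≤ t) hr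
  have h2 : 1 ≤ t ^ r := Real.one_le_rpow ht hr.le
  have h3 : 1 + Real.log t ≤ (1 + 1 / r) * t ^ r := by
    have : (1 + 1 / r) * t ^ r = t ^ r + t ^ r / r := by ring
    linarith
  have h4 : 0 ≤ Real.log t := Real.log_nonneg ht
  have h5 := Real.log_le_log (by linarith) h3
  rw [Real.log_mul (by positivity) (by positivity), Real.log_rpow (by linarith)] at h5
  exact h5

/-- the general weighted inequality -/
theorem coreP (ε η : ℝ) (hε : 0 < ε) (hη : 0 < η) : ∃ C : ℝ, 0 < C ∧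
    ∀ (X Y : Finset ℤ) (S : Finset ℚ) (B P : ℚ → Finset ℤ),
      (∀ x ∈ X, x ≠ 0) → (∀ y ∈ Y, y ≠ 0) → (∀ l ∈ S, (B l).Nonempty) →
      (∀ l ∈ S, (P l).Nonempty) → (∀ l ∈ S, B l ⊆ X) →
      (∀ l ∈ S, ∀ x ∈ B l, ∃ y ∈ Y, (y : ℚ) = l * x) →
      ∑ l ∈ S, ((B l).card : ℝ) ^ 2 * ((P l).card : ℝ) ^ (-η) *
        (((B l + P l).card : ℝ) / (P l).card) ^ (-C) ≤
        C * ((X.card : ℝ) * Y.card) ^ (1 + ε) := by
  classical
  obtain ⟨c, hc, hsys⟩ := sys ε hε
  obtain ⟨e, he⟩ : ∃ e : ℝ, e = min 1 (η / 3) := ⟨_, rfl⟩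
  have he0 : 0 < e := by rw [he]; positivity
  have he1 : e ≤ 1 := by rw [he]; exact min_le_left _ _
  have heη : 3 * e ≤ η := by
    have : e ≤ η / 3 := by rw [he]; exact min_le_right _ _
    linarith
  obtain ⟨M, hM⟩ : ∃ M : ℝ, M = Real.exp (c / e) := ⟨_, rfl⟩
  have hM1 : 1 ≤ M := by rw [hM]; exact Real.one_le_exp (by positivity)
  obtain ⟨r, hr⟩ : ∃ r : ℝ, r = e / (4 * M) := ⟨_, rfl⟩
  have hr0 : 0 < r := by rw [hr]; positivity
  obtain ⟨C1, hC1⟩ : ∃ C1 : ℝ, C1 = 2 * Real.log 2 + 20 * M + 4 * M * Real.log (1 + 1 / r) :=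
    ⟨_, rfl⟩
  have hC1E := Real.exp_pos C1
  refine ⟨18 * M + 8 * Real.exp C1, by positivity, ?_⟩
  intro X Y S B P hX hY hB hP hBX hBY
  have hBne : ∀ l ∈ S, ∃ b ∈ B l, b ≠ 0 := fun l hl => by
    obtain ⟨x, hx⟩ := hB l hl
    exact ⟨x, hx, hX x (hBX l hl hx)⟩
  have hred : ∀ l : ℚ, ∃ D : Finset ℤ, l ∈ S → D ⊆ B l ∧ D.Nonempty ∧ (∀ c ∈ D, c ≠ 0) ∧
      (∀ q : ℕ, q.Prime → (q : ℝ) < M → ∀ c ∈ D, ∀ c' ∈ D, padicValInt q c = padicValInt q c') ∧
      Real.log (B l).card - Real.log 2 -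
        2 * M * (5 + 4 * Real.log (((B l + P l).card : ℝ) / (P l).card) +
        Real.log (1 + Real.log (P l).card)) ≤ Real.log D.card := by
    intro l
    by_cases hl : l ∈ S
    · obtain ⟨D, h⟩ := reduce M hM1 (B l) (P l) (hBne l hl) (hP l hl)
      exact ⟨D, fun _ => h⟩
    · exact ⟨∅, fun h => absurd h hl⟩
  choose D hD using hred
  have hmain := hsys e he0 he1 M hM _ X Y S D P rfl hX hY
    (fun l hl => (hD l hl).2.1) hP (fun l hl => (hD l hl).1.trans (hBX l hl))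
    (fun l hl x hx => hBY l hl x ((hD l hl).1 hx))
    (fun l hl q hq hqe x hx x' hx' => (hD l hl).2.2.2.1 q hq (by rw [hM]; exact hqe) x hx x' hx')
  -- one term
  have hterm : ∀ l ∈ S, Real.exp (-C1) *
      (((B l).card : ℝ) ^ 2 * ((P l).card : ℝ) ^ (-η) *
        (((B l + P l).card : ℝ) / (P l).card) ^ (-(18 * M + 8 * Real.exp C1)))
      ≤ Real.exp (F 1 M e (D l) (P l)) ^ 2 := by
    intro l hl
    obtain ⟨hDB, hDne, _, _, hDlog⟩ := hD l hl
    have cB : (1 : ℝ) ≤ (B l).card := by exact_mod_cast (hB l hl).card_pos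
    have cP : (1 : ℝ) ≤ (P l).card := by exact_mod_cast (hP l hl).card_pos
    obtain ⟨κ, hκ⟩ : ∃ κ : ℝ, κ = ((B l + P l).card : ℝ) / (P l).card := ⟨_, rfl⟩
    rw [← hκ] at hDlog ⊢
    have hκ1 : 1 ≤ κ := by
      rw [hκ, le_div_iff₀ (by linarith), one_mul]
      exact_mod_cast card_le_card_add_left (hB l hl)
    have hlκ : 0 ≤ Real.log κ := Real.log_nonneg hκ1
    have hlP : 0 ≤ Real.log (P l).card := Real.log_nonneg cP
    have hg : g (D l) (P l) ≤ Real.log κ := by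
      refine (g_le _ _ hDne (hP l hl)).trans ?_
      apply Real.log_le_log
      · have h1 : (0 : ℝ) < (D l + P l).card := by
          exact_mod_cast (hDne.add (hP l hl)).card_pos
        positivity
      · rw [hκ]
        apply div_le_div_of_nonneg_right _ (by linarith)
        exact_mod_cast card_le_card (add_subset_add_right hDB)
    have hF : Real.log (B l).card - Real.log 2 - 2 * M * (5 + 4 * Real.log κ +
        Real.log (1 + Real.log (P l).card)) - M * Real.log κ - e * Real.log (P l).card ≤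
        F 1 M e (D l) (P l) := by
      unfold F
      rw [one_mul]
      have := mul_le_mul_of_nonneg_left hg (by linarith : 0 ≤ M)
      linarith
    have hll := log_one_add_log hr0 cP
    have hll2 : 4 * M * Real.log (1 + Real.log (P l).card) ≤
        4 * M * Real.log (1 + 1 / r) + e * Real.log (P l).card := by
      have h1 := mul_le_mul_of_nonneg_left hll (by positivity : 0 ≤ 4 * M)
      have h2 : 4 * M * (r * Real.log (P l).card) = e * Real.log (P l).card := by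
        rw [hr]; field_simp
      linarith
    have hF2 : 2 * Real.log (B l).card - 18 * M * Real.log κ - 3 * e * Real.log (P l).card - C1 ≤
        2 * F 1 M e (D l) (P l) := by
      rw [hC1]
      linarith
    have hexp : Real.exp (F 1 M e (D l) (P l)) ^ 2 = Real.exp (2 * F 1 M e (D l) (P l)) := by
      rw [← Real.exp_nat_mul]; norm_num
    rw [hexp]
    refine le_trans ?_ (Real.exp_le_exp.2 hF2)
    have e1 : Real.exp (2 * Real.log (B l).card - 18 * M * Real.log κ -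
        3 * e * Real.log (P l).card - C1) = Real.exp (-C1) *
          (((B l).card : ℝ) ^ 2 * ((P l).card : ℝ) ^ (-(3 * e)) * κ ^ (-(18 * M))) := by
      have e2 : ((B l).card : ℝ) ^ 2 = Real.exp (2 * Real.log (B l).card) := by
        rw [← Real.rpow_natCast, Real.rpow_def_of_pos (by linarith)]
        congr 1
        push_cast; ring
      have e3 : κ ^ (-(18 * M)) = Real.exp (-(18 * M) * Real.log κ) := by
        rw [Real.rpow_def_of_pos (by linarith)]
        congr 1; ring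
      have e4 : ((P l).card : ℝ) ^ (-(3 * e)) = Real.exp (-(3 * e) * Real.log (P l).card) := by
        rw [Real.rpow_def_of_pos (by linarith)]
        congr 1; ring
      rw [e2, e3, e4, ← Real.exp_add, ← Real.exp_add, ← Real.exp_add]
      congr 1
      ring
    rw [e1]
    have h1 : ((P l).card : ℝ) ^ (-η) ≤ ((P l).card : ℝ) ^ (-(3 * e)) :=
      Real.rpow_le_rpow_of_exponent_le cP (by linarith)
    have h2 : κ ^ (-(18 * M + 8 * Real.exp C1)) ≤ κ ^ (-(18 * M)) :=
      Real.rpow_le_rpow_of_exponent_le hκ1 (by linarith)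
    have hκ0 : 0 < κ := by linarith
    gcongr
  have hsum := sum_le_sum hterm
  rw [← mul_sum] at hsum
  have htot := hsum.trans hmain
  have h1 : Real.exp (-C1) = (Real.exp C1)⁻¹ := Real.exp_neg _
  rw [h1, inv_mul_le_iff₀ hC1E] at htot
  refine htot.trans ?_
  have h3 : 0 ≤ ((X.card : ℝ) * Y.card) ^ (1 + ε) := by positivity
  have h4 := mul_nonneg (by positivity : 0 ≤ 18 * M) h3
  linarith

/-- the sets `B l` have small difference sets -/
theorem core (ε : ℝ) (hε : 0 < ε) : ∃ C : ℝ, 0 < C ∧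
    ∀ (X Y : Finset ℤ) (S : Finset ℚ) (B : ℚ → Finset ℤ),
      (∀ x ∈ X, x ≠ 0) → (∀ y ∈ Y, y ≠ 0) → (∀ l ∈ S, (B l).Nonempty) →
      (∀ l ∈ S, B l ⊆ X) → (∀ l ∈ S, ∀ x ∈ B l, ∃ y ∈ Y, (y : ℚ) = l * x) →
      ∑ l ∈ S, ((B l).card : ℝ) ^ 2 * (((B l - B l).card : ℝ) / (B l).card) ^ (-C) ≤
        C * ((X.card : ℝ) * Y.card) ^ (1 + ε) := by
  classical
  obtain ⟨C, hC, h⟩ := coreP (ε / 2) ε (by positivity) hε
  refine ⟨C, hC, ?_⟩
  intro X Y S B hX hY hB hBX hBY
  have h1 := h X Y S B (fun l => -(B l)) hX hY hB (fun l hl => (hB l hl).neg) hBX hBY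
  rcases S.eq_empty_or_nonempty with hS | ⟨l₀, hl₀⟩
  · rw [hS, sum_empty]
    positivity
  have hcX : ∀ l ∈ S, ((B l).card : ℝ) ≤ X.card := fun l hl => by
    exact_mod_cast card_le_card (hBX l hl)
  have hcY : ∀ l ∈ S, ((B l).card : ℝ) ≤ Y.card := fun l hl => by
    exact_mod_cast card_le_right hY (hB l hl) (hBY l hl)
  have hc1 : ∀ l ∈ S, (1 : ℝ) ≤ (B l).card := fun l hl => by
    exact_mod_cast (hB l hl).card_pos
  have hN : (1 : ℝ) ≤ (X.card : ℝ) * Y.card := by
    have := hcX l₀ hl₀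
    have := hcY l₀ hl₀
    have := hc1 l₀ hl₀
    nlinarith
  have hN0 : (0 : ℝ) < (X.card : ℝ) * Y.card := by linarith
  have h2 : ((X.card : ℝ) * Y.card) ^ (-(ε / 2)) * (∑ l ∈ S, ((B l).card : ℝ) ^ 2 *
      (((B l - B l).card : ℝ) / (B l).card) ^ (-C)) ≤ C * ((X.card : ℝ) * Y.card) ^ (1 + ε / 2) := by
    refine le_trans ?_ h1
    rw [mul_sum]
    refine sum_le_sum fun l hl => ?_
    have e1 : (-(B l)).card = (B l).card := card_neg (B l)
    have e2 : B l + -(B l) = B l - B l := (sub_eq_add_neg _ _).symm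
    simp only [e1, e2]
    have h3 : ((X.card : ℝ) * Y.card) ^ (-(ε / 2)) ≤ ((B l).card : ℝ) ^ (-ε) := by
      have cB := hc1 l hl
      have h4 : ((B l).card : ℝ) ^ (2 : ℝ) ≤ (X.card : ℝ) * Y.card := by
        rw [Real.rpow_two, sq]
        have := hcX l hl
        have := hcY l hl
        nlinarith
      have h5 := Real.rpow_le_rpow_of_nonpos (by positivity) h4 (by linarith : -(ε / 2) ≤ 0)
      rw [← Real.rpow_mul (by linarith)] at h5
      have e3 : (2 : ℝ) * -(ε / 2) = -ε := by ring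
      rwa [e3] at h5
    have h6 : 0 ≤ ((B l).card : ℝ) ^ 2 * (((B l - B l).card : ℝ) / (B l).card) ^ (-C) := by
      positivity
    calc ((X.card : ℝ) * Y.card) ^ (-(ε / 2)) * (((B l).card : ℝ) ^ 2 *
        (((B l - B l).card : ℝ) / (B l).card) ^ (-C))
        ≤ ((B l).card : ℝ) ^ (-ε) * (((B l).card : ℝ) ^ 2 *
        (((B l - B l).card : ℝ) / (B l).card) ^ (-C)) := mul_le_mul_of_nonneg_right h3 h6
      _ = _ := by ring
  have e3 : ((X.card : ℝ) * Y.card) ^ (-(ε / 2)) = (((X.card : ℝ) * Y.card) ^ (ε / 2))⁻¹ :=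
    Real.rpow_neg hN0.le _
  rw [e3, inv_mul_le_iff₀ (by positivity)] at h2
  refine h2.trans (le_of_eq ?_)
  have e4 : ((X.card : ℝ) * Y.card) ^ (1 + ε) =
      ((X.card : ℝ) * Y.card) ^ (ε / 2) * ((X.card : ℝ) * Y.card) ^ (1 + ε / 2) := by
    rw [← Real.rpow_add hN0]; congr 1; ring
  rw [e4]
  ring

end Pool.Agent.Zk30
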