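import Pool.Agent.Zk30.Ineq

/-!
# The double sequence inequality
-/

set_option autoImplicit false

namespace Pool.Agent.Zk30

open Finset

theorem min_split {P Q R : ℝ} (hP : 0 ≤ P) (hQ : 0 ≤ Q) (hR : 0 ≤ R) :
    min (P + Q) R ≤ min P R + min Q R := by
  rcases le_total P R with h1 | h1
  · rcases le_total Q R with h2 | h2
    · rw [min_eq_left h1, min_eq_left h2]; exact min_le_left _ _
    · rw [min_eq_right h2]
      have : 0 ≤ min P R := le_min hP hR
      linarith [min_le_right (P + Q) R]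
  · rw [min_eq_right h1]
    have : 0 ≤ min Q R := le_min hQ hR
    linarith [min_le_right (P + Q) R]

theorem shift_sum (M : Finset ℕ) (N N2 i : ℕ) (hi : i < N) (hM : ∀ m ∈ M, m + N ≤ N2)
    (φ : ℕ → ℝ) (hφ : ∀ j, 0 ≤ φ j) : ∑ m ∈ M, φ (i + m) ≤ ∑ j ∈ range N2, φ j := by
  have h1 : ∑ m ∈ M, φ (i + m) = ∑ j ∈ M.image (fun m => i + m), φ j := by
    rw [sum_image]
    intro x _ y _ hxy
    exact Nat.add_left_cancel hxy
  rw [h1]
  refine sum_le_sum_of_subset_of_nonneg ?_ fun j _ _ => hφ j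
  intro j hj
  obtain ⟨m, hm, rfl⟩ := mem_image.1 hj
  rw [mem_range]
  have := hM m hm
  omega

theorem tl_shift (N N2 i m : ℕ) (hm : m + N ≤ N2) (b : ℕ → ℝ) (hb : ∀ j, 0 ≤ b j) :
    ∑ j ∈ range N, (if i < j then b (j + m) else 0) ≤ tl N2 b (i + m) := by
  unfold tl
  have h1 : ∑ j ∈ range N, (if i < j then b (j + m) else 0) =
      ∑ j ∈ (range N).image (fun j => j + m), (if i + m < j then b j else 0) := by
    rw [sum_image]
    · refine sum_congr rfl fun j _ => ?_
      simp
    · intro x _ y _ hxy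
      exact Nat.add_right_cancel hxy
  rw [h1]
  refine sum_le_sum_of_subset_of_nonneg ?_ fun j _ _ => by split_ifs; exacts [hb j, le_rfl]
  intro j hj
  obtain ⟨l, hl, rfl⟩ := mem_image.1 hj
  rw [mem_range] at hl ⊢
  omega

theorem dbl {ι : Type*} (S : Finset ι) (k : ι → ℕ) (u : ι → ℕ → ℝ) (hu : ∀ l i, 0 ≤ u l i)
    (N N2 : ℕ) (hN : ∀ l ∈ S, k l + N ≤ N2) (a b : ℕ → ℝ) (ha : ∀ i, 0 ≤ a i)
    (hb : ∀ j, 0 ≤ b j) (δ : ℝ) (hδ : 0 ≤ δ)
    (h : ∀ m i, i < N → ∑ l ∈ S.filter (fun l => k l = m), (u l i) ^ 2 ≤ a i * b (i + m)) :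
    ∑ l ∈ S, ∑ i ∈ range N, ((u l i) ^ 2 + 2 * min (u l i * tl N (u l) i) (δ * (u l i) ^ 2)) ≤
      (∑ i ∈ range N, (a i + min (tl N a i) (2 * δ * a i))) *
        (∑ j ∈ range N2, (b j + min (tl N2 b j) (2 * δ * b j))) := by
  classical
  have htla : ∀ i, 0 ≤ tl N a i := fun i => tl_nonneg ha i
  have htlb : ∀ i, 0 ≤ tl N2 b i := fun i => tl_nonneg hb i
  have hga : ∀ i, 0 ≤ min (tl N a i) (2 * δ * a i) := fun i =>
    le_min (htla i) (by have := ha i; positivity)
  have hgb : ∀ j, 0 ≤ min (tl N2 b j) (2 * δ * b j) := fun j =>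
    le_min (htlb j) (by have := hb j; positivity)
  -- one class
  have hclass : ∀ m, m + N ≤ N2 → ∀ i, i < N →
      ∑ l ∈ S.filter (fun l => k l = m),
        ((u l i) ^ 2 + 2 * min (u l i * tl N (u l) i) (δ * (u l i) ^ 2)) ≤
      a i * b (i + m) + a i * min (tl N2 b (i + m)) (2 * δ * b (i + m)) +
        b (i + m) * min (tl N a i) (2 * δ * a i) := by
    intro m hm i hi
    set Sm := S.filter (fun l => k l = m) with hSm
    have h1 : ∑ l ∈ Sm, (u l i) ^ 2 ≤ a i * b (i + m) := h m i hi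
    have h2 : ∑ l ∈ Sm, u l i * tl N (u l) i ≤
        (a i * tl N2 b (i + m) + b (i + m) * tl N a i) / 2 := by
      have e1 : ∑ l ∈ Sm, u l i * tl N (u l) i =
          ∑ j ∈ range N, (if i < j then ∑ l ∈ Sm, u l i * u l j else 0) := by
        unfold tl
        simp_rw [mul_sum]
        rw [sum_comm]
        refine sum_congr rfl fun j _ => ?_
        split_ifs
        · rfl
        · simp
      have h3 : ∀ j, j < N → ∑ l ∈ Sm, u l i * u l j ≤ (a i * b (j + m) + a j * b (i + m)) / 2 := by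
        intro j hj
        have h4 := sum_mul_sq_le_sq_mul_sq Sm (fun l => u l i) (fun l => u l j)
        have h5 : ∑ l ∈ Sm, (u l j) ^ 2 ≤ a j * b (j + m) := h m j hj
        have h6 : (∑ l ∈ Sm, u l i * u l j) ^ 2 ≤ (a i * b (i + m)) * (a j * b (j + m)) :=
          h4.trans (mul_le_mul h1 h5 (sum_nonneg fun l _ => sq_nonneg _)
            (mul_nonneg (ha _) (hb _)))
        have h7 : (∑ l ∈ Sm, u l i * u l j) ^ 2 ≤ ((a i * b (j + m) + a j * b (i + m)) / 2) ^ 2 := by
          nlinarith [sq_nonneg (a i * b (j + m) - a j * b (i + m))]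
        have h8 : 0 ≤ (a i * b (j + m) + a j * b (i + m)) / 2 := by
          have := mul_nonneg (ha i) (hb (j + m))
          have := mul_nonneg (ha j) (hb (i + m))
          linarith
        exact (abs_le.1 (abs_le_of_sq_le_sq h7 h8)).2
      rw [e1]
      calc ∑ j ∈ range N, (if i < j then ∑ l ∈ Sm, u l i * u l j else 0)
          ≤ ∑ j ∈ range N, ((a i * (if i < j then b (j + m) else 0) +
              b (i + m) * (if i < j then a j else 0)) / 2) := by
            refine sum_le_sum fun j hj => ?_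
            split_ifs
            · have := h3 j (mem_range.1 hj)
              linarith
            · simp
        _ = (a i * (∑ j ∈ range N, (if i < j then b (j + m) else 0)) +
              b (i + m) * tl N a i) / 2 := by
            unfold tl
            rw [← sum_div, sum_add_distrib, ← mul_sum, ← mul_sum]
        _ ≤ _ := by
            have := mul_le_mul_of_nonneg_left (tl_shift N N2 i m hm b hb) (ha i)
            linarith
    have h3 : ∑ l ∈ Sm, min (u l i * tl N (u l) i) (δ * (u l i) ^ 2) ≤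
        min ((a i * tl N2 b (i + m) + b (i + m) * tl N a i) / 2) (δ * (a i * b (i + m))) := by
      refine le_min ?_ ?_
      · exact (sum_le_sum fun l _ => min_le_left _ _).trans h2
      · calc ∑ l ∈ Sm, min (u l i * tl N (u l) i) (δ * (u l i) ^ 2)
            ≤ ∑ l ∈ Sm, δ * (u l i) ^ 2 := sum_le_sum fun l _ => min_le_right _ _
          _ = δ * ∑ l ∈ Sm, (u l i) ^ 2 := by rw [mul_sum]
          _ ≤ _ := mul_le_mul_of_nonneg_left h1 hδ
    have h4 : 2 * min ((a i * tl N2 b (i + m) + b (i + m) * tl N a i) / 2)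
        (δ * (a i * b (i + m))) ≤ a i * min (tl N2 b (i + m)) (2 * δ * b (i + m)) +
        b (i + m) * min (tl N a i) (2 * δ * a i) := by
      have e1 : 2 * min ((a i * tl N2 b (i + m) + b (i + m) * tl N a i) / 2)
          (δ * (a i * b (i + m))) = min (a i * tl N2 b (i + m) + b (i + m) * tl N a i)
          (2 * δ * (a i * b (i + m))) := by
        rw [mul_min_of_nonneg _ _ (by norm_num : (0 : ℝ) ≤ 2)]
        congr 1
        · ring
        · ring
      rw [e1]
      refine (min_split (mul_nonneg (ha _) (htlb _)) (mul_nonneg (hb _) (htla _)) (by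
        have := mul_nonneg (ha i) (hb (i + m)); positivity)).trans (le_of_eq ?_)
      rw [mul_min_of_nonneg _ _ (ha i), mul_min_of_nonneg _ _ (hb (i + m))]
      congr 1
      · congr 1; ring
      · congr 1; ring
    rw [sum_add_distrib, ← mul_sum]
    linarith
  -- all classes
  have hfib : ∑ l ∈ S, ∑ i ∈ range N,
      ((u l i) ^ 2 + 2 * min (u l i * tl N (u l) i) (δ * (u l i) ^ 2)) =
      ∑ i ∈ range N, ∑ m ∈ S.image k, ∑ l ∈ S.filter (fun l => k l = m),
        ((u l i) ^ 2 + 2 * min (u l i * tl N (u l) i) (δ * (u l i) ^ 2)) := by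
    rw [sum_comm]
    refine sum_congr rfl fun i _ => ?_
    rw [sum_fiberwise_of_maps_to (fun l hl => mem_image_of_mem k hl)]
  have hM : ∀ m ∈ S.image k, m + N ≤ N2 := by
    intro m hm
    obtain ⟨l, hl, rfl⟩ := mem_image.1 hm
    exact hN l hl
  rw [hfib]
  set B := ∑ j ∈ range N2, b j with hB
  set GB := ∑ j ∈ range N2, min (tl N2 b j) (2 * δ * b j) with hGB
  have hB0 : 0 ≤ B := sum_nonneg fun j _ => hb j
  have hGB0 : 0 ≤ GB := sum_nonneg fun j _ => hgb j
  have hi : ∀ i ∈ range N, ∑ m ∈ S.image k, ∑ l ∈ S.filter (fun l => k l = m),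
        ((u l i) ^ 2 + 2 * min (u l i * tl N (u l) i) (δ * (u l i) ^ 2)) ≤
      a i * B + a i * GB + B * min (tl N a i) (2 * δ * a i) := by
    intro i hi
    rw [mem_range] at hi
    refine (sum_le_sum fun m hm => hclass m (hM m hm) i hi).trans ?_
    rw [sum_add_distrib, sum_add_distrib, ← mul_sum, ← mul_sum, ← sum_mul]
    have h1 := shift_sum (S.image k) N N2 i hi hM b hb
    have h2 := shift_sum (S.image k) N N2 i hi hM (fun j => min (tl N2 b j) (2 * δ * b j)) hgb
    have h3 := mul_le_mul_of_nonneg_left h1 (ha i)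
    have h4 := mul_le_mul_of_nonneg_left h2 (ha i)
    have h5 := mul_le_mul_of_nonneg_right h1 (hga i)
    linarith
  refine (sum_le_sum hi).trans ?_
  rw [sum_add_distrib, sum_add_distrib, ← sum_mul, ← sum_mul, ← mul_sum]
  rw [sum_add_distrib, sum_add_distrib, ← hB, ← hGB]
  have h1 : 0 ≤ ∑ i ∈ range N, min (tl N a i) (2 * δ * a i) := sum_nonneg fun i _ => hga i
  nlinarith [mul_nonneg h1 hGB0]

end Pool.Agent.Zk30
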