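import Pool.Agent.Zk30.Rich

/-!
# The multiplicative energy
-/

set_option autoImplicit false

namespace Pool.Agent.Zk30

open Finset
open scoped Pointwise

/-- the fibre of a ratio -/
def fib (X Y : Finset ℤ) (l : ℚ) : Finset ℤ :=
  open Classical in X.filter fun x => ∃ y ∈ Y, (y : ℚ) = l * x

theorem mem_fib {X Y : Finset ℤ} {l : ℚ} {x : ℤ} :
    x ∈ fib X Y l ↔ x ∈ X ∧ ∃ y ∈ Y, (y : ℚ) = l * x := by
  unfold fib
  rw [mem_filter]

/-- the ratios -/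
def rat (X Y : Finset ℤ) : Finset ℚ := (X ×ˢ Y).image fun p => (p.2 : ℚ) / p.1

theorem energy_le (X Y : Finset ℤ) (hX : ∀ x ∈ X, 0 < x) :
    X.mulEnergy Y ≤ ∑ l ∈ rat X Y, (fib X Y l).card ^ 2 := by
  classical
  have h1 : ∑ l ∈ rat X Y, (fib X Y l).card ^ 2 =
      ((rat X Y).biUnion fun l => (fib X Y l ×ˢ fib X Y l).image fun q => (l, q)).card := by
    rw [card_biUnion]
    · refine sum_congr rfl fun l _ => ?_
      rw [card_image_of_injective, card_product, sq]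
      intro a b h
      exact (Prod.mk.inj h).2
    · intro l _ l' _ hne
      show Disjoint _ _
      rw [disjoint_left]
      intro z hz hz'
      obtain ⟨q, _, rfl⟩ := mem_image.1 hz
      obtain ⟨q', _, h⟩ := mem_image.1 hz'
      exact hne (Prod.mk.inj h).1.symm
  rw [h1]
  unfold Finset.mulEnergy
  refine card_le_card_of_injOn (fun q => ((q.2.2 : ℚ) / q.1.1, (q.1.1, q.1.2))) ?_ ?_
  · rintro ⟨⟨a, b⟩, ⟨c, d⟩⟩ hq
    simp only [mem_coe, mem_filter, mem_product] at hq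
    obtain ⟨⟨⟨ha, hb⟩, ⟨hc, hd⟩⟩, he⟩ := hq
    have ha0 : (a : ℚ) ≠ 0 := by exact_mod_cast (hX a ha).ne'
    have hb0 : (b : ℚ) ≠ 0 := by exact_mod_cast (hX b hb).ne'
    have he' : (a : ℚ) * c = b * d := by exact_mod_cast he
    rw [mem_coe, mem_biUnion]
    refine ⟨(d : ℚ) / a, ?_, ?_⟩
    · exact mem_image.2 ⟨(a, d), mem_product.2 ⟨ha, hd⟩, rfl⟩
    · rw [mem_image]
      refine ⟨(a, b), ?_, rfl⟩
      rw [mem_product, mem_fib, mem_fib]
      refine ⟨⟨ha, d, hd, by field_simp⟩, hb, c, hc, ?_⟩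
      field_simp
      linarith
  · rintro ⟨⟨a, b⟩, ⟨c, d⟩⟩ hq ⟨⟨a', b'⟩, ⟨c', d'⟩⟩ hq' h
    simp only [mem_coe, mem_filter, mem_product] at hq hq'
    simp only [Prod.mk.injEq] at h ⊢
    obtain ⟨h1, rfl, rfl⟩ := h
    have ha0 : (a : ℚ) ≠ 0 := by exact_mod_cast (hX a hq.1.1.1).ne'
    have hb0 : (b : ℚ) ≠ 0 := by exact_mod_cast (hX b hq.1.1.2).ne'
    have h2 : (d : ℚ) = d' := by
      field_simp at h1
      exact h1
    have h3 : d = d' := by exact_mod_cast h2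
    have h4 : (a : ℚ) * c = a * c' := by
      have e1 : (a : ℚ) * c = b * d := by exact_mod_cast hq.2
      have e2 : (a : ℚ) * c' = b * d' := by exact_mod_cast hq'.2
      rw [e1, e2, h2]
    have h5 : (c : ℚ) = c' := mul_left_cancel₀ ha0 h4
    exact ⟨⟨rfl, rfl⟩, by exact_mod_cast h5, h3⟩

/-- one dyadic class carries a large part of the energy -/
theorem dyadic (X Y : Finset ℤ) (hX : ∀ x ∈ X, 0 < x) (hXne : X.Nonempty) (hYne : Y.Nonempty) :
    ∃ (S : Finset ℚ) (T : ℕ), 1 ≤ T ∧ S.Nonempty ∧ (∀ l ∈ S, T ≤ (fib X Y l).card) ∧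
      X.mulEnergy Y ≤ 4 * (Nat.log 2 X.card + 1) * (S.card * T ^ 2) := by
  classical
  obtain ⟨x₀, hx₀⟩ := hXne
  obtain ⟨y₀, hy₀⟩ := hYne
  set L := Nat.log 2 X.card + 1 with hL
  set cls : ℕ → Finset ℚ := fun m =>
    (rat X Y).filter fun l => Nat.log 2 (fib X Y l).card = m with hcls
  have hne : ∀ l ∈ rat X Y, (fib X Y l).card ≠ 0 := by
    intro l hl
    obtain ⟨p, hp, rfl⟩ := mem_image.1 hl
    rw [mem_product] at hp
    have h0 : (p.1 : ℚ) ≠ 0 := by exact_mod_cast (hX _ hp.1).ne'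
    exact (card_pos.2 ⟨p.1, mem_fib.2 ⟨hp.1, p.2, hp.2, by field_simp⟩⟩).ne'
  have hEpos : 0 < X.mulEnergy Y := Finset.mulEnergy_pos ⟨x₀, hx₀⟩ ⟨y₀, hy₀⟩
  have h1 : X.mulEnergy Y ≤ ∑ m ∈ range L, 4 * ((cls m).card * (2 ^ m) ^ 2) := by
    refine (energy_le X Y hX).trans ?_
    rw [← sum_fiberwise_of_maps_to (s := rat X Y) (t := range L)
      (g := fun l => Nat.log 2 (fib X Y l).card)]
    · refine sum_le_sum fun m _ => ?_
      calc ∑ l ∈ (rat X Y).filter (fun l => Nat.log 2 (fib X Y l).card = m),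
            (fib X Y l).card ^ 2 ≤ ∑ _l ∈ cls m, (2 ^ (m + 1)) ^ 2 := by
            refine sum_le_sum fun l hl => ?_
            rw [mem_filter] at hl
            apply Nat.pow_le_pow_left
            rw [← hl.2]
            exact (Nat.lt_pow_succ_log_self (by norm_num) _).le
        _ = _ := by
            rw [sum_const, smul_eq_mul]
            ring
    · intro l _
      rw [mem_range, hL, Nat.lt_succ_iff]
      apply Nat.log_mono_right
      unfold fib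
      exact card_le_card (filter_subset _ _)
  obtain ⟨m, hm, hmax⟩ := exists_max_image (range L) (fun m => (cls m).card * (2 ^ m) ^ 2)
    ⟨0, mem_range.2 (by omega)⟩
  have h2 : X.mulEnergy Y ≤ 4 * L * ((cls m).card * (2 ^ m) ^ 2) := by
    refine h1.trans ?_
    calc ∑ m ∈ range L, 4 * ((cls m).card * (2 ^ m) ^ 2) ≤
        ∑ _m' ∈ range L, 4 * ((cls m).card * (2 ^ m) ^ 2) :=
          sum_le_sum fun m' hm' => Nat.mul_le_mul_left _ (hmax m' hm')
      _ = _ := by rw [sum_const, card_range, smul_eq_mul]; ring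
  refine ⟨cls m, 2 ^ m, Nat.one_le_two_pow, ?_, ?_, h2⟩
  · rw [nonempty_iff_ne_empty]
    intro h0
    rw [h0, card_empty, zero_mul, mul_zero] at h2
    omega
  · intro l hl
    rw [hcls, mem_filter] at hl
    rw [← hl.2]
    exact Nat.pow_log_le_self 2 (hne l hl.1)

/-- Solymosi's inequality with a power saving, in terms of the multiplicative energy -/
theorem energy_main (ε : ℝ) (hε : 0 < ε) : ∃ κ c : ℝ, 0 < κ ∧ 0 < c ∧
    ∀ X Y : Finset ℤ, X.Nonempty → Y.Nonempty → (∀ x ∈ X, 0 < x) → (∀ y ∈ Y, 0 < y) →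
      c * (X.mulEnergy Y : ℝ) * ((X.mulEnergy Y : ℝ) / ((X.card : ℝ) * Y.card) ^ (1 + ε)) ^ κ ≤
        ((X + X).card : ℝ) * (Y + Y).card := by
  classical
  obtain ⟨C, hC, hrich⟩ := rich (ε / 2) (by positivity)
  obtain ⟨r, hr⟩ : ∃ r : ℝ, r = ε / 2 / (1 + C) := ⟨_, rfl⟩
  have hr0 : 0 < r := by rw [hr]; positivity
  -- `4 L ≤ B N ^ r`
  obtain ⟨B, hB⟩ : ∃ B : ℝ, B = 4 * (1 + 1 / (Real.log 2 * r)) := ⟨_, rfl⟩
  have hl2 : 0 < Real.log 2 := Real.log_pos (by norm_num)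
  have hB0 : 0 < B := by rw [hB]; positivity
  obtain ⟨D, hD⟩ : ∃ D : ℝ, D = B ^ (1 + C) * C * 4 ^ C := ⟨_, rfl⟩
  have hD0 : 0 < D := by rw [hD]; positivity
  refine ⟨1 / C, (D ^ (1 / C))⁻¹, by positivity, by positivity, ?_⟩
  intro X Y hXne hYne hX hY
  obtain ⟨S, T, hT, hS, hST, hE⟩ := dyadic X Y hX hXne hYne
  have hQex : ∀ l : ℚ, ∃ Q : Finset ℤ, l ∈ S → Q ⊆ fib X Y l ∧ Q.card = T := by
    intro l
    by_cases hl : l ∈ S
    · obtain ⟨Q, h1, h2⟩ := exists_subset_card_eq (hST l hl)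
      exact ⟨Q, fun _ => ⟨h1, h2⟩⟩
    · exact ⟨∅, fun h => absurd h hl⟩
  choose Q hQ using hQex
  have hQX : ∀ l ∈ S, Q l ⊆ X := fun l hl x hx => (mem_fib.1 ((hQ l hl).1 hx)).1
  have hQY : ∀ l ∈ S, ∀ x ∈ Q l, ∃ y ∈ Y, (y : ℚ) = l * x := fun l hl x hx =>
    (mem_fib.1 ((hQ l hl).1 hx)).2
  have hQT : ∀ l ∈ S, (Q l).card = T := fun l hl => (hQ l hl).2
  have h1 := hrich X Y S Q T hX hY hT hS hQX hQY hQT
  have h2 := basic X Y hX hY S Q T hT hQX hQY hQT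
  obtain ⟨V, hV⟩ : ∃ V, V = (S.card : ℝ) * (T : ℝ) ^ 2 := ⟨_, rfl⟩
  obtain ⟨σ, hσ⟩ : ∃ σ, σ = ((X + X).card : ℝ) * (Y + Y).card := ⟨_, rfl⟩
  obtain ⟨N, hN⟩ : ∃ N, N = (X.card : ℝ) * Y.card := ⟨_, rfl⟩
  obtain ⟨E, hEr⟩ : ∃ E : ℝ, E = (X.mulEnergy Y : ℝ) := ⟨_, rfl⟩
  rw [← hV, ← hσ, ← hN] at h1
  rw [← hV, ← hσ] at h2
  rw [← hσ, ← hN, ← hEr]
  have hTr : (1 : ℝ) ≤ T := by exact_mod_cast hT
  have hSc : (0 : ℝ) < S.card := by exact_mod_cast hS.card_pos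
  have hV0 : 0 < V := by rw [hV]; positivity
  have hσ0 : 0 < σ := by linarith
  have cX : (1 : ℝ) ≤ X.card := by exact_mod_cast hXne.card_pos
  have cY : (1 : ℝ) ≤ Y.card := by exact_mod_cast hYne.card_pos
  have hN1 : 1 ≤ N := by rw [hN]; nlinarith
  have hXN : (X.card : ℝ) ≤ N := by rw [hN]; nlinarith
  have hE0 : 0 < E := by
    rw [hEr]; exact_mod_cast Finset.mulEnergy_pos hXne hYne
  -- the logarithm
  obtain ⟨L, hL⟩ : ∃ L : ℝ, L = ((Nat.log 2 X.card + 1 : ℕ) : ℝ) := ⟨_, rfl⟩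
  have hL1 : 4 * L ≤ B * N ^ r := by
    have h3 : ((Nat.log 2 X.card : ℕ) : ℝ) ≤ Real.log X.card / Real.log 2 := by
      have h4 := Real.natLog_le_logb X.card 2
      rwa [Real.logb] at h4
    have h4 : Real.log X.card ≤ Real.log N := Real.log_le_log (by linarith) hXN
    have h5 := Real.log_le_rpow_div (by linarith : (0 : ℝ) ≤ N) hr0
    have h6 : 1 ≤ N ^ r := Real.one_le_rpow hN1 hr0.le
    have h7 : Real.log X.card / Real.log 2 ≤ (N ^ r / r) / Real.log 2 :=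
      div_le_div_of_nonneg_right (h4.trans h5) hl2.le
    have h8 : (N ^ r / r) / Real.log 2 = (1 / (Real.log 2 * r)) * N ^ r := by field_simp
    rw [hL, hB]
    push_cast
    rw [h8] at h7
    nlinarith
  have hLpos : 0 < L := by rw [hL]; positivity
  have hEV : E ≤ 4 * L * V := by
    have : (X.mulEnergy Y : ℝ) ≤ ((4 * (Nat.log 2 X.card + 1) * (S.card * T ^ 2) : ℕ) : ℝ) := by
      exact_mod_cast hE
    rw [hEr, hL, hV]
    refine this.trans (le_of_eq ?_)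
    push_cast
    ring
  have h3 : 1 + σ / V ≤ 4 * (σ / V) := by
    have : 1 / 3 ≤ σ / V := by
      rw [le_div_iff₀ hV0]; linarith
    linarith
  have h4 : V ≤ C * N ^ (1 + ε / 2) * (4 ^ C * (σ ^ C / V ^ C)) := by
    refine h1.trans ?_
    have h5 : (1 + σ / V) ^ C ≤ 4 ^ C * (σ ^ C / V ^ C) := by
      rw [← Real.div_rpow hσ0.le hV0.le, ← Real.mul_rpow (by norm_num) (by positivity)]
      exact Real.rpow_le_rpow (by positivity) h3 hC.le
    exact mul_le_mul_of_nonneg_left h5 (by positivity)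
  have h5 : V ^ (1 + C) ≤ C * 4 ^ C * N ^ (1 + ε / 2) * σ ^ C := by
    have hVC : 0 < V ^ C := by positivity
    rw [Real.rpow_add hV0, Real.rpow_one]
    calc V * V ^ C ≤ (C * N ^ (1 + ε / 2) * (4 ^ C * (σ ^ C / V ^ C))) * V ^ C :=
          mul_le_mul_of_nonneg_right h4 hVC.le
      _ = _ := by field_simp
  have h6 : E ^ (1 + C) ≤ D * N ^ (1 + ε) * σ ^ C := by
    have h7 : E ≤ (B * N ^ r) * V := hEV.trans (mul_le_mul_of_nonneg_right hL1 hV0.le)
    have h8 := Real.rpow_le_rpow hE0.le h7 (by positivity : 0 ≤ 1 + C)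
    rw [Real.mul_rpow (by positivity) hV0.le, Real.mul_rpow hB0.le (by positivity),
      ← Real.rpow_mul (by linarith)] at h8
    have e1 : r * (1 + C) = ε / 2 := by rw [hr]; field_simp
    rw [e1] at h8
    refine h8.trans ?_
    calc B ^ (1 + C) * N ^ (ε / 2) * V ^ (1 + C) ≤
        B ^ (1 + C) * N ^ (ε / 2) * (C * 4 ^ C * N ^ (1 + ε / 2) * σ ^ C) :=
          mul_le_mul_of_nonneg_left h5 (by positivity)
      _ = D * (N ^ (ε / 2) * N ^ (1 + ε / 2)) * σ ^ C := by rw [hD]; ring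
      _ = _ := by rw [← Real.rpow_add (by linarith)]; congr 3; ring
  have h7 := Real.rpow_le_rpow (by positivity) h6 (by positivity : 0 ≤ 1 / C)
  have hNε : 0 < N ^ (1 + ε) := by positivity
  rw [Real.mul_rpow (by positivity) (by positivity), Real.mul_rpow hD0.le hNε.le,
    ← Real.rpow_mul hσ0.le, mul_one_div_cancel hC.ne', Real.rpow_one, ← Real.rpow_mul hE0.le] at h7
  have e1 : (1 + C) * (1 / C) = 1 + 1 / C := by field_simp; ring
  rw [e1, Real.rpow_add hE0, Real.rpow_one] at h7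
  rw [Real.div_rpow hE0.le hNε.le]
  have hDC : 0 < D ^ (1 / C) := by positivity
  have hNC : 0 < (N ^ (1 + ε)) ^ (1 / C) := by positivity
  have e2 : (D ^ (1 / C))⁻¹ * E * (E ^ (1 / C) / (N ^ (1 + ε)) ^ (1 / C)) =
      (E * E ^ (1 / C)) / (D ^ (1 / C) * (N ^ (1 + ε)) ^ (1 / C)) := by
    field_simp
  rw [e2, div_le_iff₀ (by positivity)]
  linarith

end Pool.Agent.Zk30
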