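import Pool.Agent.Zk30.Ener

/-!
# Sets of nonzero integers, and the sum-product form
-/

set_option autoImplicit false

namespace Pool.Agent.Zk30

open Finset
open scoped Pointwise

theorem mulEnergy_union_le (A A' B : Finset ℤ) :
    (A ∪ A').mulEnergy B ≤ 2 * (A.mulEnergy B + A'.mulEnergy B) := by
  classical
  rw [mulEnergy_eq_card_filter, mulEnergy_eq_card_filter, mulEnergy_eq_card_filter]
  have h1 := pairs_le (A ×ˢ B) (A' ×ˢ B) (fun q : ℤ × ℤ => q.1 * q.2) (fun q : ℤ × ℤ => q.1 * q.2)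
  have h2 := pairs_le (A' ×ˢ B) (A ×ˢ B) (fun q : ℤ × ℤ => q.1 * q.2) (fun q : ℤ × ℤ => q.1 * q.2)
  have h3 : (((A ∪ A') ×ˢ B) ×ˢ ((A ∪ A') ×ˢ B)).filter
      (fun x => x.1.1 * x.1.2 = x.2.1 * x.2.2) ⊆
      ((((A ×ˢ B) ×ˢ (A ×ˢ B)).filter fun x => x.1.1 * x.1.2 = x.2.1 * x.2.2) ∪
      (((A' ×ˢ B) ×ˢ (A' ×ˢ B)).filter fun x => x.1.1 * x.1.2 = x.2.1 * x.2.2)) ∪
      ((((A ×ˢ B) ×ˢ (A' ×ˢ B)).filter fun x => x.1.1 * x.1.2 = x.2.1 * x.2.2) ∪
      (((A' ×ˢ B) ×ˢ (A ×ˢ B)).filter fun x => x.1.1 * x.1.2 = x.2.1 * x.2.2)) := by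
    intro x hx
    simp only [mem_union, mem_filter, mem_product] at hx ⊢
    tauto
  have h4 := card_le_card h3
  have h5 := (card_union_le ((((A ×ˢ B) ×ˢ (A ×ˢ B)).filter fun x => x.1.1 * x.1.2 = x.2.1 * x.2.2) ∪
      (((A' ×ˢ B) ×ˢ (A' ×ˢ B)).filter fun x => x.1.1 * x.1.2 = x.2.1 * x.2.2))
      ((((A ×ˢ B) ×ˢ (A' ×ˢ B)).filter fun x => x.1.1 * x.1.2 = x.2.1 * x.2.2) ∪
      (((A' ×ˢ B) ×ˢ (A ×ˢ B)).filter fun x => x.1.1 * x.1.2 = x.2.1 * x.2.2)))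
  have h6 := card_union_le (((A ×ˢ B) ×ˢ (A ×ˢ B)).filter fun x => x.1.1 * x.1.2 = x.2.1 * x.2.2)
      (((A' ×ˢ B) ×ˢ (A' ×ˢ B)).filter fun x => x.1.1 * x.1.2 = x.2.1 * x.2.2)
  have h7 := card_union_le (((A ×ˢ B) ×ˢ (A' ×ˢ B)).filter fun x => x.1.1 * x.1.2 = x.2.1 * x.2.2)
      (((A' ×ˢ B) ×ˢ (A ×ˢ B)).filter fun x => x.1.1 * x.1.2 = x.2.1 * x.2.2)
  omega

theorem mulEnergy_neg (A B : Finset ℤ) : (-A).mulEnergy B = A.mulEnergy B := by
  classical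
  unfold Finset.mulEnergy
  refine card_bij (fun q _ => ((-q.1.1, -q.1.2), q.2)) ?_ ?_ ?_
  · rintro ⟨⟨a, b⟩, ⟨c, d⟩⟩ h
    simp only [mem_filter, mem_product, Finset.mem_neg', neg_neg] at h ⊢
    refine ⟨h.1, ?_⟩
    have := h.2
    rw [neg_mul, neg_mul, this]
  · rintro ⟨⟨a, b⟩, ⟨c, d⟩⟩ _ ⟨⟨a', b'⟩, ⟨c', d'⟩⟩ _ h
    simp only [Prod.mk.injEq, neg_inj] at h ⊢
    exact h
  · rintro ⟨⟨a, b⟩, ⟨c, d⟩⟩ h
    simp only [mem_filter, mem_product] at h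
    refine ⟨((-a, -b), (c, d)), ?_, by simp⟩
    simp only [mem_filter, mem_product, Finset.mem_neg', neg_neg]
    refine ⟨h.1, ?_⟩
    rw [neg_mul, neg_mul, h.2]

/-- passing to one sign -/
theorem half (A B : Finset ℤ) (hA : A.Nonempty) (hB : B.Nonempty) (h0 : ∀ a ∈ A, a ≠ 0) :
    ∃ A' : Finset ℤ, A'.Nonempty ∧ (∀ a ∈ A', 0 < a) ∧ A'.card ≤ A.card ∧
      (A' + A').card ≤ (A + A).card ∧ A.mulEnergy B ≤ 4 * A'.mulEnergy B := by
  classical
  set P := A.filter fun a => 0 < a with hP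
  set Q := A.filter fun a => a < 0 with hQ
  have hPQ : A = P ∪ Q := by
    ext a
    rw [mem_union, hP, hQ, mem_filter, mem_filter]
    constructor
    · intro ha
      rcases lt_trichotomy a 0 with h | h | h
      · exact Or.inr ⟨ha, h⟩
      · exact absurd h (h0 a ha)
      · exact Or.inl ⟨ha, h⟩
    · rintro (h | h)
      · exact h.1
      · exact h.1
  have hE : A.mulEnergy B ≤ 2 * (P.mulEnergy B + Q.mulEnergy B) := by
    conv_lhs => rw [hPQ]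
    exact mulEnergy_union_le P Q B
  have hpos := mulEnergy_pos hA hB
  rcases le_total (P.mulEnergy B) (Q.mulEnergy B) with h | h
  · have hQpos : 0 < Q.mulEnergy B := by omega
    refine ⟨-Q, ((mulEnergy_pos_iff).1 hQpos).1.neg, ?_, ?_, ?_, ?_⟩
    · intro a ha
      rw [Finset.mem_neg', hQ, mem_filter] at ha
      omega
    · rw [card_neg]; exact card_le_card (filter_subset _ _)
    · have : -Q + -Q = -(Q + Q) := by rw [neg_add]
      rw [this, card_neg]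
      exact card_le_card (add_subset_add (filter_subset _ _) (filter_subset _ _))
    · rw [mulEnergy_neg]; omega
  · have hPpos : 0 < P.mulEnergy B := by omega
    refine ⟨P, ((mulEnergy_pos_iff).1 hPpos).1, ?_, ?_, ?_, ?_⟩
    · intro a ha
      exact (mem_filter.1 ha).2
    · exact card_le_card (filter_subset _ _)
    · exact card_le_card (add_subset_add (filter_subset _ _) (filter_subset _ _))
    · omega

/-- the energy form for sets of nonzero integers -/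
theorem energy_int (ε : ℝ) (hε : 0 < ε) : ∃ κ c : ℝ, 0 < κ ∧ 0 < c ∧
    ∀ A B : Finset ℤ, A.Nonempty → B.Nonempty → (∀ a ∈ A, a ≠ 0) → (∀ b ∈ B, b ≠ 0) →
      c * (A.mulEnergy B : ℝ) * ((A.mulEnergy B : ℝ) / ((A.card : ℝ) * B.card) ^ (1 + ε)) ^ κ ≤
        ((A + A).card : ℝ) * (B + B).card := by
  classical
  obtain ⟨κ, c, hκ, hc, h⟩ := energy_main ε hε
  refine ⟨κ, c / 16 / 16 ^ κ, hκ, by positivity, ?_⟩
  intro A B hA hB hA0 hB0
  obtain ⟨A', hA'ne, hA'pos, hA'c, hA's, hA'E⟩ := half A B hA hB hA0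
  obtain ⟨B', hB'ne, hB'pos, hB'c, hB's, hB'E⟩ := half B A' hB hA'ne hB0
  have hE : A.mulEnergy B ≤ 16 * A'.mulEnergy B' := by
    rw [mulEnergy_comm A' B']
    rw [mulEnergy_comm A' B] at hA'E
    omega
  have h1 := h A' B' hA'ne hB'ne hA'pos hB'pos
  obtain ⟨E, hEd⟩ : ∃ E : ℝ, E = (A.mulEnergy B : ℝ) := ⟨_, rfl⟩
  obtain ⟨E', hEd'⟩ : ∃ E' : ℝ, E' = (A'.mulEnergy B' : ℝ) := ⟨_, rfl⟩
  rw [← hEd]
  rw [← hEd'] at h1
  have hEE : E ≤ 16 * E' := by rw [hEd, hEd']; exact_mod_cast hE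
  have hE0 : 0 < E := by rw [hEd]; exact_mod_cast mulEnergy_pos hA hB
  have hE0' : 0 < E' := by linarith
  have cA' : (0 : ℝ) < A'.card := by exact_mod_cast hA'ne.card_pos
  have cB' : (0 : ℝ) < B'.card := by exact_mod_cast hB'ne.card_pos
  have cA : (A'.card : ℝ) ≤ A.card := by exact_mod_cast hA'c
  have cB : (B'.card : ℝ) ≤ B.card := by exact_mod_cast hB'c
  have hN : ((A'.card : ℝ) * B'.card) ^ (1 + ε) ≤ ((A.card : ℝ) * B.card) ^ (1 + ε) :=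
    Real.rpow_le_rpow (by positivity) (mul_le_mul cA cB cB'.le (by linarith)) (by linarith)
  have hN0 : 0 < ((A'.card : ℝ) * B'.card) ^ (1 + ε) := by positivity
  have h2 : E / ((A.card : ℝ) * B.card) ^ (1 + ε) ≤
      16 * (E' / ((A'.card : ℝ) * B'.card) ^ (1 + ε)) := by
    calc E / ((A.card : ℝ) * B.card) ^ (1 + ε) ≤ E / ((A'.card : ℝ) * B'.card) ^ (1 + ε) :=
          div_le_div_of_nonneg_left hE0.le hN0 hN
      _ ≤ (16 * E') / ((A'.card : ℝ) * B'.card) ^ (1 + ε) :=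
          div_le_div_of_nonneg_right hEE hN0.le
      _ = _ := by ring
  have h3 : (E / ((A.card : ℝ) * B.card) ^ (1 + ε)) ^ κ ≤
      16 ^ κ * (E' / ((A'.card : ℝ) * B'.card) ^ (1 + ε)) ^ κ := by
    rw [← Real.mul_rpow (by norm_num) (by positivity)]
    exact Real.rpow_le_rpow (by positivity) h2 hκ.le
  have h16 : (0 : ℝ) < 16 ^ κ := by positivity
  calc c / 16 / 16 ^ κ * E * (E / ((A.card : ℝ) * B.card) ^ (1 + ε)) ^ κ
      ≤ c / 16 / 16 ^ κ * (16 * E') *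
        (16 ^ κ * (E' / ((A'.card : ℝ) * B'.card) ^ (1 + ε)) ^ κ) := by
        gcongr
    _ = c * E' * (E' / ((A'.card : ℝ) * B'.card) ^ (1 + ε)) ^ κ := by
        field_simp
    _ ≤ ((A' + A').card : ℝ) * (B' + B').card := h1
    _ ≤ _ := by
        apply mul_le_mul (by exact_mod_cast hA's) (by exact_mod_cast hB's) (Nat.cast_nonneg _)
          (Nat.cast_nonneg _)

/-- few products -/
theorem few_products (δ : ℝ) (hδ : 0 < δ) : ∃ κ c : ℝ, 0 < κ ∧ 0 < c ∧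
    ∀ A B : Finset ℤ, A.Nonempty → B.Nonempty → (∀ a ∈ A, a ≠ 0) → (∀ b ∈ B, b ≠ 0) →
      ((A * B).card : ℝ) ≤ ((A.card : ℝ) * B.card) ^ (1 - δ) →
      c * ((A.card : ℝ) * B.card) ^ (2 + κ) ≤
        ((A + A).card : ℝ) * (B + B).card * (A * B).card := by
  classical
  obtain ⟨κ, c, hκ, hc, h⟩ := energy_int (δ / 2) (by positivity)
  refine ⟨κ * (δ / 2), c, by positivity, hc, ?_⟩
  intro A B hA hB hA0 hB0 hAB
  have h1 := h A B hA hB hA0 hB0
  have h2 := le_card_mul_mul_mulEnergy A B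
  obtain ⟨N, hN⟩ : ∃ N : ℝ, N = (A.card : ℝ) * B.card := ⟨_, rfl⟩
  obtain ⟨E, hE⟩ : ∃ E : ℝ, E = (A.mulEnergy B : ℝ) := ⟨_, rfl⟩
  obtain ⟨P, hP⟩ : ∃ P : ℝ, P = ((A * B).card : ℝ) := ⟨_, rfl⟩
  rw [← hN, ← hE] at h1
  rw [← hP, ← hN] at hAB
  rw [← hN, ← hP]
  have h2' : N ^ 2 ≤ P * E := by
    rw [hN, hP, hE, mul_pow]
    exact_mod_cast h2
  have cA : (1 : ℝ) ≤ A.card := by exact_mod_cast hA.card_pos
  have cB : (1 : ℝ) ≤ B.card := by exact_mod_cast hB.card_pos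
  have hN1 : 1 ≤ N := by rw [hN]; nlinarith
  have hN0 : 0 < N := by linarith
  have hE0 : 0 < E := by rw [hE]; exact_mod_cast mulEnergy_pos hA hB
  have hP0 : 0 < P := by rw [hP]; exact_mod_cast (hA.mul hB).card_pos
  have h3 : N ^ (1 + δ) ≤ E := by
    have h4 : N ^ (2 : ℝ) ≤ N ^ (1 - δ) * E := by
      rw [Real.rpow_two]
      exact h2'.trans (mul_le_mul_of_nonneg_right hAB hE0.le)
    have e1 : N ^ (2 : ℝ) = N ^ (1 - δ) * N ^ (1 + δ) := by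
      rw [← Real.rpow_add hN0]; congr 1; ring
    rw [e1] at h4
    exact le_of_mul_le_mul_left h4 (by positivity)
  have h4 : N ^ (δ / 2) ≤ E / N ^ (1 + δ / 2) := by
    rw [le_div_iff₀ (by positivity), ← Real.rpow_add hN0]
    refine le_trans (le_of_eq ?_) h3
    congr 1; ring
  have h5 : N ^ (κ * (δ / 2)) ≤ (E / N ^ (1 + δ / 2)) ^ κ := by
    have := Real.rpow_le_rpow (by positivity) h4 hκ.le
    rwa [← Real.rpow_mul hN0.le, mul_comm (δ / 2) κ] at this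
  calc c * N ^ (2 + κ * (δ / 2)) = c * N ^ 2 * N ^ (κ * (δ / 2)) := by
        rw [Real.rpow_add hN0, Real.rpow_two]; ring
    _ ≤ c * (P * E) * (E / N ^ (1 + δ / 2)) ^ κ := by gcongr
    _ = (c * E * (E / N ^ (1 + δ / 2)) ^ κ) * P := by ring
    _ ≤ _ := mul_le_mul_of_nonneg_right h1 hP0.le

/-- one set of integers -/
theorem one_set (δ : ℝ) (hδ : 0 < δ) : ∃ κ c : ℝ, 0 < κ ∧ 0 < c ∧
    ∀ A : Finset ℤ, A.Nonempty → ((A * A).card : ℝ) ≤ (A.card : ℝ) ^ (2 - δ) →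
      c * (A.card : ℝ) ^ (4 + κ) ≤ ((A + A).card : ℝ) ^ 2 * (A * A).card := by
  classical
  obtain ⟨κ, c, hκ, hc, h⟩ := energy_int (δ / 4) (by positivity)
  refine ⟨κ * (δ / 2), min 1 (c * (1 / 16) ^ (1 + κ)), by positivity, by positivity, ?_⟩
  intro A hA hAA
  have cA : (1 : ℝ) ≤ A.card := by exact_mod_cast hA.card_pos
  have hA0' : (0 : ℝ) < A.card := by linarith
  by_cases hA1 : A.card = 1
  · have h1 : (1 : ℝ) ≤ (A + A).card := by exact_mod_cast (hA.add hA).card_pos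
    have h2 : (1 : ℝ) ≤ (A * A).card := by exact_mod_cast (hA.mul hA).card_pos
    rw [hA1, Nat.cast_one, Real.one_rpow, mul_one]
    refine (min_le_left _ _).trans ?_
    nlinarith
  obtain ⟨D, hD⟩ : ∃ D, D = A.erase 0 := ⟨_, rfl⟩
  have hDc : A.card ≤ 2 * D.card := by
    have h1 : A.card - 1 ≤ D.card := by rw [hD]; exact pred_card_le_card_erase
    have h2 := hA.card_pos
    omega
  have hDne : D.Nonempty := by
    rw [← card_pos]
    have := hA.card_pos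
    omega
  have hDA : D ⊆ A := by rw [hD]; exact erase_subset _ _
  have hD0 : ∀ a ∈ D, a ≠ 0 := fun a ha => by
    rw [hD] at ha
    exact (mem_erase.1 ha).1
  have h1 := h D D hDne hDne hD0 hD0
  have h2 := le_card_mul_mul_mulEnergy D D
  obtain ⟨n, hn⟩ : ∃ n : ℝ, n = (A.card : ℝ) := ⟨_, rfl⟩
  obtain ⟨d, hd⟩ : ∃ d : ℝ, d = (D.card : ℝ) := ⟨_, rfl⟩
  obtain ⟨E, hE⟩ : ∃ E : ℝ, E = (D.mulEnergy D : ℝ) := ⟨_, rfl⟩
  obtain ⟨P, hP⟩ : ∃ P : ℝ, P = ((A * A).card : ℝ) := ⟨_, rfl⟩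
  rw [← hd, ← hE] at h1
  rw [← hn] at cA hA0' hAA
  rw [← hP] at hAA
  rw [← hn, ← hP]
  have hdn : d ≤ n := by rw [hd, hn]; exact_mod_cast card_le_card hDA
  have hnd : n / 2 ≤ d := by
    have : n ≤ 2 * d := by rw [hd, hn]; exact_mod_cast hDc
    linarith
  have hd1 : 1 ≤ d := by rw [hd]; exact_mod_cast hDne.card_pos
  have hd0 : 0 < d := by linarith
  have hE0 : 0 < E := by rw [hE]; exact_mod_cast mulEnergy_pos hDne hDne
  have hP0 : 0 < P := by rw [hP]; exact_mod_cast (hA.mul hA).card_pos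
  have h2' : d ^ 4 ≤ P * E := by
    have h3 : ((D * D).card : ℝ) ≤ P := by
      rw [hP]; exact_mod_cast card_le_card (mul_subset_mul hDA hDA)
    have h4 : d ^ 4 ≤ ((D * D).card : ℝ) * E := by
      rw [hd, hE]
      calc (D.card : ℝ) ^ 4 = (D.card : ℝ) ^ 2 * (D.card : ℝ) ^ 2 := by ring
        _ ≤ _ := by exact_mod_cast h2
    exact h4.trans (mul_le_mul_of_nonneg_right h3 hE0.le)
  -- the energy is at least `n ^ (2 + δ) / 16`
  have hn4 : (n / 2) ^ 4 ≤ d ^ 4 := pow_le_pow_left₀ (by positivity) hnd 4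
  have h3 : n ^ (2 + δ) / 16 ≤ E := by
    have h4 : (n / 2) ^ 4 ≤ n ^ (2 - δ) * E :=
      hn4.trans (h2'.trans (mul_le_mul_of_nonneg_right hAA hE0.le))
    have e1 : (n / 2) ^ 4 = n ^ (2 - δ) * (n ^ (2 + δ) / 16) := by
      have e2 : n ^ (4 : ℝ) = n ^ (2 - δ) * n ^ (2 + δ) := by
        rw [← Real.rpow_add hA0']; congr 1; ring
      have e3 : n ^ (4 : ℝ) = n ^ 4 := by
        rw [← Real.rpow_natCast]; norm_num
      rw [e3] at e2
      rw [div_pow, e2]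
      ring
    rw [e1] at h4
    exact le_of_mul_le_mul_left h4 (by positivity)
  have h4 : n ^ (δ / 2) / 16 ≤ E / (d * d) ^ (1 + δ / 4) := by
    rw [le_div_iff₀ (by positivity)]
    refine le_trans ?_ h3
    have h5 : (d * d) ^ (1 + δ / 4) ≤ n ^ (2 + δ / 2) := by
      have h6 : (d * d) ^ (1 + δ / 4) ≤ (n * n) ^ (1 + δ / 4) :=
        Real.rpow_le_rpow (by positivity) (mul_le_mul hdn hdn hd0.le hA0'.le) (by positivity)
      refine h6.trans (le_of_eq ?_)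
      rw [← sq, ← Real.rpow_two, ← Real.rpow_mul hA0'.le]
      congr 1; ring
    calc n ^ (δ / 2) / 16 * (d * d) ^ (1 + δ / 4) ≤ n ^ (δ / 2) / 16 * n ^ (2 + δ / 2) :=
          mul_le_mul_of_nonneg_left h5 (by positivity)
      _ = (n ^ (δ / 2) * n ^ (2 + δ / 2)) / 16 := by ring
      _ = _ := by rw [← Real.rpow_add hA0']; congr 2; ring
  have h5 : n ^ (κ * (δ / 2)) * (1 / 16) ^ κ ≤ (E / (d * d) ^ (1 + δ / 4)) ^ κ := by
    have h6 := Real.rpow_le_rpow (by positivity) h4 hκ.le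
    refine le_trans (le_of_eq ?_) h6
    rw [mul_comm κ (δ / 2), Real.rpow_mul hA0'.le, ← Real.mul_rpow (by positivity) (by norm_num)]
    congr 1; ring
  have hDD : ((D + D).card : ℝ) ≤ (A + A).card := by
    exact_mod_cast card_le_card (add_subset_add hDA hDA)
  have hmin : min 1 (c * (1 / 16) ^ (1 + κ)) ≤ c * (1 / 16) ^ (1 + κ) := min_le_right _ _
  have e16 : (1 / 16 : ℝ) ^ (1 + κ) = 1 / 16 * (1 / 16) ^ κ := by
    rw [Real.rpow_add (by norm_num), Real.rpow_one]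
  have e4 : n ^ (4 + κ * (δ / 2)) = n ^ 4 * n ^ (κ * (δ / 2)) := by
    rw [Real.rpow_add hA0']
    congr 1
    rw [← Real.rpow_natCast]; norm_num
  have h6 : (n / 2) ^ 4 ≤ P * E := hn4.trans h2'
  have h7 : n ^ 4 / 16 ≤ P * E := by
    have : (n / 2) ^ 4 = n ^ 4 / 16 := by ring
    rwa [this] at h6
  have h1' : c * E * (E / (d * d) ^ (1 + δ / 4)) ^ κ ≤ ((A + A).card : ℝ) ^ 2 := by
    refine h1.trans ?_
    rw [sq]
    exact mul_le_mul hDD hDD (Nat.cast_nonneg _) (Nat.cast_nonneg _)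
  calc min 1 (c * (1 / 16) ^ (1 + κ)) * n ^ (4 + κ * (δ / 2))
      ≤ c * (1 / 16) ^ (1 + κ) * n ^ (4 + κ * (δ / 2)) :=
        mul_le_mul_of_nonneg_right hmin (by positivity)
    _ = c * (n ^ 4 / 16) * (n ^ (κ * (δ / 2)) * (1 / 16) ^ κ) := by rw [e16, e4]; ring
    _ ≤ c * (P * E) * (E / (d * d) ^ (1 + δ / 4)) ^ κ := by gcongr
    _ = (c * E * (E / (d * d) ^ (1 + δ / 4)) ^ κ) * P := by ring
    _ ≤ _ := mul_le_mul_of_nonneg_right h1' hP0.le

end Pool.Agent.Zk30
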