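import Mathlib

/-!
# Superadditivity with a gain, and the double sequence inequality
-/

set_option autoImplicit false

namespace Pool.Agent.Zk30

open Finset

/-- two terms: the gain in the superadditivity of a power `1 + ε` -/
theorem two_term (ε : ℝ) (hε : 0 < ε) (d : ℝ) (hd : 0 ≤ d) (hd1 : d ≤ ε * Real.exp (-(1 / ε)) / 2)
    (u v : ℝ) (hu : 0 ≤ u) (hv : 0 ≤ v) :
    u ^ (1 + ε) + v ^ (1 + ε) + min (v ^ (1 + ε)) (d * u ^ (1 + ε)) ≤ (u + v) ^ (1 + ε) := by
  have hs : (0 : ℝ) < 1 + ε := by linarith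
  rcases hu.eq_or_lt with h0 | h0
  · rw [← h0, Real.zero_rpow hs.ne', mul_zero, zero_add, zero_add]
    have : min (v ^ (1 + ε)) 0 ≤ 0 := min_le_right _ _
    linarith
  obtain ⟨ξ, hξ⟩ : ∃ ξ : ℝ, ξ = v / u := ⟨_, rfl⟩
  have hξ0 : 0 ≤ ξ := by rw [hξ]; positivity
  have hv' : v = u * ξ := by rw [hξ]; field_simp
  have e1 : v ^ (1 + ε) = u ^ (1 + ε) * ξ ^ (1 + ε) := by
    rw [hv', Real.mul_rpow h0.le hξ0]
  have e2 : (u + v) ^ (1 + ε) = u ^ (1 + ε) * (1 + ξ) ^ (1 + ε) := by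
    rw [hv', ← Real.mul_rpow h0.le (by linarith)]
    congr 1; ring
  have hu' : 0 < u ^ (1 + ε) := Real.rpow_pos_of_pos h0 _
  have key : 1 + ξ ^ (1 + ε) + min (ξ ^ (1 + ε)) d ≤ (1 + ξ) ^ (1 + ε) := by
    have e3 : ∀ t : ℝ, 0 ≤ t → t ^ (1 + ε) = t * t ^ ε := by
      intro t ht
      rcases ht.eq_or_lt with h | h
      · rw [← h, Real.zero_rpow hs.ne', zero_mul]
      · rw [Real.rpow_add h, Real.rpow_one]
    by_cases hc : ξ ≤ Real.exp (-(1 / ε))
    · have h1 : ξ ^ ε ≤ Real.exp (-1) := by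
        have h2 := Real.rpow_le_rpow hξ0 hc hε.le
        rw [← Real.exp_mul] at h2
        have e : -(1 / ε) * ε = -1 := by field_simp
        rwa [e] at h2
      have h2 : Real.exp (-1) ≤ 0.4 := by
        rw [Real.exp_neg, inv_le_comm₀ (Real.exp_pos _) (by norm_num)]
        have := Real.exp_one_gt_d9
        norm_num at this ⊢
        linarith
      have h3 : ξ ^ (1 + ε) ≤ 0.4 * ξ := by
        rw [e3 ξ hξ0]
        nlinarith
      have h4 : 1 + (1 + ε) * ξ ≤ (1 + ξ) ^ (1 + ε) :=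
        one_add_mul_self_le_rpow_one_add (by linarith) (by linarith)
      have h5 : min (ξ ^ (1 + ε)) d ≤ ξ ^ (1 + ε) := min_le_left _ _
      have h6 : 0 ≤ ε * ξ := by positivity
      nlinarith
    · push Not at hc
      have h1 : ξ ^ ε ≤ (1 + ξ) ^ ε := Real.rpow_le_rpow hξ0 (by linarith) hε.le
      have h2 : d ≤ (1 + ξ) ^ ε - 1 := by
        have h3 : ε * Real.log (1 + ξ) ≤ (1 + ξ) ^ ε - 1 := by
          have h4 := Real.add_one_le_exp (Real.log (1 + ξ) * ε)
          rw [← Real.rpow_def_of_pos (by linarith)] at h4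
          linarith
        have h4 : Real.exp (-(1 / ε)) / 2 ≤ Real.log (1 + ξ) := by
          set t := Real.exp (-(1 / ε)) with ht
          have ht0 : 0 < t := Real.exp_pos _
          have ht1 : t ≤ 1 := Real.exp_le_one_iff.2 (by
            have : 0 < 1 / ε := by positivity
            linarith)
          have h5 : Real.log (1 + t) ≤ Real.log (1 + ξ) :=
            Real.log_le_log (by linarith) (by linarith)
          have h6 : t / 2 ≤ Real.log (1 + t) := by
            have h7 := Real.one_sub_inv_le_log_of_pos (show (0 : ℝ) < 1 + t by linarith)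
            refine le_trans ?_ h7
            have h8 : 1 - (1 + t)⁻¹ = t / (1 + t) := by field_simp; ring
            rw [h8]
            apply div_le_div_of_nonneg_left ht0.le (by linarith) (by linarith)
          linarith
        have h5 := mul_le_mul_of_nonneg_left h4 hε.le
        linarith
      have h3 : min (ξ ^ (1 + ε)) d ≤ d := min_le_right _ _
      rw [e3 (1 + ξ) (by linarith), e3 ξ hξ0] at *
      nlinarith
  rw [e1, e2]
  have e4 : min (u ^ (1 + ε) * ξ ^ (1 + ε)) (d * u ^ (1 + ε)) =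
      u ^ (1 + ε) * min (ξ ^ (1 + ε)) d := by
    rw [mul_comm d, mul_min_of_nonneg _ _ hu'.le]
  rw [e4]
  have := mul_le_mul_of_nonneg_left key hu'.le
  linarith

/-- the tail of a sum -/
noncomputable def tl (N : ℕ) (a : ℕ → ℝ) (i : ℕ) : ℝ := ∑ j ∈ range N, if i < j then a j else 0

theorem tl_nonneg {N : ℕ} {a : ℕ → ℝ} (ha : ∀ j, 0 ≤ a j) (i : ℕ) : 0 ≤ tl N a i :=
  sum_nonneg fun j _ => by split_ifs; exacts [ha j, le_rfl]

/-- many terms -/
theorem many_term (ε : ℝ) (hε : 0 < ε) (d : ℝ) (hd : 0 ≤ d)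
    (hd1 : d ≤ ε * Real.exp (-(1 / ε)) / 2) (N : ℕ) :
    ∀ x : ℕ → ℝ, (∀ i, 0 ≤ x i) →
    ∑ i ∈ range N, ((x i) ^ (1 + ε) + min (tl N (fun j => (x j) ^ (1 + ε)) i)
      (d * (x i) ^ (1 + ε))) ≤ (∑ i ∈ range N, x i) ^ (1 + ε) := by
  have hs : (0 : ℝ) < 1 + ε := by linarith
  induction N with
  | zero =>
    intro x _
    simp [Real.zero_rpow hs.ne']
  | succ N ih =>
    intro x hx
    rw [sum_range_succ', sum_range_succ' (fun i => x i)]
    have h1 := ih (fun i => x (i + 1)) (fun i => hx _)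
    have e1 : ∀ i, tl (N + 1) (fun j => (x j) ^ (1 + ε)) (i + 1) =
        tl N (fun j => (x (j + 1)) ^ (1 + ε)) i := by
      intro i
      unfold tl
      rw [sum_range_succ']
      simp
    have e2 : tl (N + 1) (fun j => (x j) ^ (1 + ε)) 0 =
        ∑ j ∈ range N, (x (j + 1)) ^ (1 + ε) := by
      unfold tl
      rw [sum_range_succ']
      simp
    have h2 : ∑ j ∈ range N, (x (j + 1)) ^ (1 + ε) ≤ (∑ j ∈ range N, x (j + 1)) ^ (1 + ε) := by
      refine le_trans (sum_le_sum fun i _ => ?_) h1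
      have h3 : 0 ≤ (x (i + 1)) ^ (1 + ε) := Real.rpow_nonneg (hx _) _
      have h4 : 0 ≤ min (tl N (fun j => (x (j + 1)) ^ (1 + ε)) i) (d * (x (i + 1)) ^ (1 + ε)) :=
        le_min (tl_nonneg (fun j => Real.rpow_nonneg (hx _) _) _) (by positivity)
      linarith
    have h3 := two_term ε hε d hd hd1 (x 0) (∑ j ∈ range N, x (j + 1)) (hx 0)
      (sum_nonneg fun j _ => hx _)
    have h4 : min (tl (N + 1) (fun j => (x j) ^ (1 + ε)) 0) (d * (x 0) ^ (1 + ε)) ≤
        min ((∑ j ∈ range N, x (j + 1)) ^ (1 + ε)) (d * (x 0) ^ (1 + ε)) := by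
      rw [e2]
      exact min_le_min h2 le_rfl
    have e3 : ∑ i ∈ range N, ((x (i + 1)) ^ (1 + ε) +
        min (tl (N + 1) (fun j => (x j) ^ (1 + ε)) (i + 1)) (d * (x (i + 1)) ^ (1 + ε))) =
        ∑ i ∈ range N, ((x (i + 1)) ^ (1 + ε) +
        min (tl N (fun j => (x (j + 1)) ^ (1 + ε)) i) (d * (x (i + 1)) ^ (1 + ε))) :=
      sum_congr rfl fun i _ => by rw [e1]
    rw [e3, add_comm (∑ i ∈ range N, x (i + 1)) (x 0)]
    linarith

end Pool.Agent.Zk30
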