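import Pool.Agent.Zk30.Split

/-!
# Splitting one cell at one prime into all its valuation classes
-/

set_option autoImplicit false

namespace Pool.Agent.Zk30

open Finset H633R5.FS
open scoped Pointwise

theorem multi (δ : ℝ) (hδ : 0 < δ) : ∃ c : ℝ, 0 < c ∧ ∀ e : ℝ, 0 < e → e ≤ 1 →
    ∀ K : ℝ, K = Real.exp (c / e) → ∀ (p : ℕ) [Fact p.Prime], Real.exp (c / e) ≤ p →
    ∀ (N n : ℕ) (C R : Finset ℤ), C.card = n → C.Nonempty → R.Nonempty → (∀ c ∈ C, c ≠ 0) →
      (∀ c ∈ C, padicValInt p c < N) →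
      ∃ R' : ℕ → Finset ℤ, (∀ i, (R' i).Nonempty) ∧
        Real.exp (F 1 K e C R) ≤ ∑ i ∈ range N, uu K e (cl p i C) (R' i) ∧
        Real.exp (F 1 K e C R) ^ 2 ≤ ∑ i ∈ range N, ((uu K e (cl p i C) (R' i)) ^ 2 +
          2 * min (uu K e (cl p i C) (R' i) * tl N (fun j => uu K e (cl p j C) (R' j)) i)
            (δ * (uu K e (cl p i C) (R' i)) ^ 2)) := by
  classical
  obtain ⟨c, hc, hsplit⟩ := split2 δ hδ
  refine ⟨c, hc, ?_⟩
  intro e he he1 K hK p _ hp N n
  induction n using Nat.strong_induction_on with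
  | _ n ih =>
  intro C R hn hC hR h0 hN
  obtain ⟨c₀, hc₀, hmin⟩ := exists_min_image C (fun c => padicValInt p c) hC
  obtain ⟨t, ht⟩ : ∃ t, t = padicValInt p c₀ := ⟨_, rfl⟩
  have hmin' : ∀ c ∈ C, t ≤ padicValInt p c := fun c hc => by rw [ht]; exact hmin c hc
  have htN : t < N := by rw [ht]; exact hN c₀ hc₀
  have hlo : (lo p t C).Nonempty := ⟨c₀, mem_lo.2 ⟨hc₀, ht.symm⟩⟩
  by_cases hhi : (hi p t C).Nonempty
  swap
  · refine ⟨fun _ => R, fun _ => hR, ?_⟩
    refine multi_const K e δ hδ.le p N t C R hC ?_ htN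
    intro c hcC
    by_contra hne
    exact hhi ⟨c, mem_hi.2 ⟨hcC, hne⟩⟩
  obtain ⟨Rl, Rh, hRl, hRh, h1, h2⟩ := hsplit e he he1 K hK p hp C R hR h0 t hmin' hhi hlo
  have hlt : (hi p t C).card < n := by
    have h3 := card_hi_lo p t C
    have h4 := hlo.card_pos
    omega
  obtain ⟨Q, hQ, q1, q2⟩ := ih _ hlt (hi p t C) Rh rfl hhi hRh
    (fun c hc => h0 c (hi_subset _ _ _ hc)) (fun c hc => hN c (hi_subset _ _ _ hc))
  -- the classes
  have e1 : ∀ i, i ≠ t → cl p i (hi p t C) = cl p i C := by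
    intro i hi'
    ext c
    rw [mem_cl, mem_cl, mem_hi]
    constructor
    · rintro ⟨⟨a, _⟩, b⟩; exact ⟨a, b⟩
    · rintro ⟨a, b⟩; exact ⟨⟨a, by rw [b]; exact hi'⟩, b⟩
  have e2 : cl p t C = lo p t C := by
    ext c; rw [mem_cl, mem_lo]
  have e3 : ¬ (cl p t (hi p t C)).Nonempty := by
    rintro ⟨c, hc⟩
    rw [mem_cl, mem_hi] at hc
    exact hc.1.2 hc.2
  have e4 : ∀ i, i < t → ¬ (cl p i C).Nonempty := by
    rintro i hi' ⟨c, hc⟩
    rw [mem_cl] at hc
    have := hmin' c hc.1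
    omega
  set R' : ℕ → Finset ℤ := fun i => if i = t then Rl else Q i with hR'
  set u : ℕ → ℝ := fun i => uu K e (cl p i C) (R' i) with hu
  set v : ℕ → ℝ := fun i => uu K e (cl p i (hi p t C)) (Q i) with hv
  have hu0 : ∀ i, 0 ≤ u i := fun i => uu_nonneg _ _ _ _
  have hv0 : ∀ i, 0 ≤ v i := fun i => uu_nonneg _ _ _ _
  have ut : u t = Real.exp (F 1 K e (lo p t C) Rl) := by
    show uu K e (cl p t C) (R' t) = _
    rw [e2, hR']
    simp only [if_true]
    exact uu_of hlo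
  have vt : v t = 0 := uu_empty e3
  have uv : ∀ i, i ≠ t → u i = v i := by
    intro i hi'
    show uu K e (cl p i C) (R' i) = uu K e (cl p i (hi p t C)) (Q i)
    rw [e1 i hi', hR']
    simp only [if_neg hi']
  have vlt : ∀ i, i < t → v i = 0 := by
    intro i hi'
    rw [← uv i hi'.ne]
    exact uu_empty (e4 i hi')
  have htail : tl N u t = ∑ i ∈ range N, v i := by
    unfold tl
    refine sum_congr rfl fun j _ => ?_
    split_ifs with h
    · exact uv j h.ne'
    · rcases (not_lt.1 h).eq_or_lt with h' | h'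
      · rw [h', vt]
      · rw [vlt j h']
  have hsum : ∑ i ∈ range N, u i = u t + ∑ i ∈ range N, v i := by
    rw [← add_sum_erase _ _ (mem_range.2 htN), ← add_sum_erase _ v (mem_range.2 htN), vt, zero_add]
    congr 1
    exact sum_congr rfl fun i hi' => uv i (mem_erase.1 hi').1
  refine ⟨R', fun i => ?_, ?_, ?_⟩
  · rw [hR']
    simp only
    split_ifs
    · exact hRl
    · exact hQ i
  · show Real.exp (F 1 K e C R) ≤ ∑ i ∈ range N, u i
    rw [hsum, ut]
    linarith
  · show Real.exp (F 1 K e C R) ^ 2 ≤ ∑ i ∈ range N, ((u i) ^ 2 +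
          2 * min (u i * tl N u i) (δ * (u i) ^ 2))
    have q2' : Real.exp (F 1 K e (hi p t C) Rh) ^ 2 ≤ ∑ i ∈ range N, ((v i) ^ 2 +
          2 * min (v i * tl N v i) (δ * (v i) ^ 2)) := q2
    have q1' : Real.exp (F 1 K e (hi p t C) Rh) ≤ ∑ i ∈ range N, v i := q1
    have h3 : ∀ i ∈ (range N).erase t, ((v i) ^ 2 + 2 * min (v i * tl N v i) (δ * (v i) ^ 2)) ≤
        ((u i) ^ 2 + 2 * min (u i * tl N u i) (δ * (u i) ^ 2)) := by
      intro i hi'
      have hne := (mem_erase.1 hi').1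
      rw [← uv i hne]
      rcases lt_or_gt_of_ne hne with h | h
      · have : u i = 0 := by rw [uv i hne]; exact vlt i h
        rw [this]; simp
      · have h4 : tl N v i ≤ tl N u i := by
          unfold tl
          refine sum_le_sum fun j _ => ?_
          split_ifs with hj
          · rw [uv j (by omega)]
          · exact le_rfl
        have h5 : min (u i * tl N v i) (δ * (u i) ^ 2) ≤ min (u i * tl N u i) (δ * (u i) ^ 2) :=
          min_le_min (mul_le_mul_of_nonneg_left h4 (hu0 i)) le_rfl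
        linarith
    rw [← add_sum_erase _ _ (mem_range.2 htN)]
    rw [← add_sum_erase _ _ (mem_range.2 htN), vt] at q2'
    have h4 := sum_le_sum h3
    have h5 : min (Real.exp (F 1 K e (lo p t C) Rl) * Real.exp (F 1 K e (hi p t C) Rh))
        (δ * Real.exp (F 1 K e (lo p t C) Rl) ^ 2) ≤ min (u t * tl N u t) (δ * (u t) ^ 2) := by
      rw [ut, htail]
      exact min_le_min (mul_le_mul_of_nonneg_left q1' (Real.exp_pos _).le) le_rfl
    have h6 : ((0 : ℝ)) ^ 2 + 2 * min (0 * tl N v t) (δ * 0 ^ 2) = 0 := by simp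
    rw [h6, zero_add] at q2'
    rw [ut] at h5 ⊢
    linarith

end Pool.Agent.Zk30
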