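import Pool.Agent.Zk30.Clus
import Pool.Agent.Zk30.Core
import Pool.Agent.H217R3.AK.Bsg

/-!
# Rich slopes
-/

set_option autoImplicit false

namespace Pool.Agent.Zk30

open Finset
open scoped Pointwise

/-- Solymosi's bound for the slopes of one class -/
theorem basic (X Y : Finset ℤ) (hX : ∀ x ∈ X, 0 < x) (hY : ∀ y ∈ Y, 0 < y) (S : Finset ℚ)
    (Q : ℚ → Finset ℤ) (T : ℕ) (hT : 1 ≤ T) (hQX : ∀ l ∈ S, Q l ⊆ X)
    (hQY : ∀ l ∈ S, ∀ x ∈ Q l, ∃ y ∈ Y, (y : ℚ) = l * x) (hQ : ∀ l ∈ S, (Q l).card = T) :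
    (S.card : ℝ) * (T : ℝ) ^ 2 ≤ 3 * (((X + X).card : ℝ) * (Y + Y).card) := by
  classical
  rcases S.eq_empty_or_nonempty with hS | ⟨l₀, hl₀⟩
  · rw [hS]
    simp only [card_empty, Nat.cast_zero, zero_mul]
    positivity
  have hQne : ∀ l ∈ S, (Q l).Nonempty := fun l hl => by
    rw [← card_pos, hQ l hl]; omega
  have hTX : T ≤ X.card := by rw [← hQ l₀ hl₀]; exact card_le_card (hQX l₀ hl₀)
  have hTY : T ≤ Y.card := by
    rw [← hQ l₀ hl₀]
    exact card_le_right (fun y hy => (hY y hy).ne') (hQne l₀ hl₀) (hQY l₀ hl₀)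
  have hXne : X.Nonempty := (hQne l₀ hl₀).mono (hQX l₀ hl₀)
  have hYne : Y.Nonempty := card_pos.1 (by omega)
  have hXX : X.card ≤ (X + X).card := card_le_card_add_left hXne
  have hYY : Y.card ≤ (Y + Y).card := card_le_card_add_left hYne
  have hT2 : (T : ℝ) ^ 2 ≤ ((X + X).card : ℝ) * (Y + Y).card := by
    rw [sq]
    exact mul_le_mul (by exact_mod_cast hTX.trans hXX) (by exact_mod_cast hTY.trans hYY)
      (Nat.cast_nonneg _) (Nat.cast_nonneg _)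
  by_cases h1 : S.card ≤ 1
  · have h2 : (S.card : ℝ) ≤ 1 := by exact_mod_cast h1
    have h3 : (S.card : ℝ) * (T : ℝ) ^ 2 ≤ 1 * (T : ℝ) ^ 2 :=
      mul_le_mul_of_nonneg_right h2 (by positivity)
    have h4 : (0 : ℝ) ≤ ((X + X).card : ℝ) * (Y + Y).card := by positivity
    linarith
  push Not at h1
  obtain ⟨n, hn⟩ : ∃ n, n = S.card / 2 := ⟨_, rfl⟩
  have hSn : S.card ≤ 3 * n := by omega
  have hpart : ∀ i ∈ range n, T ^ 2 ≤ (sec (grid X Y) (blk S 2 i)).card := by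
    intro i hi
    rw [mem_range] at hi
    have hUc : (blk S 2 i).card = 2 := card_blk S 2 i (by norm_num) (by rw [← hn]; exact hi)
    have hUS : blk S 2 i ⊆ S := filter_subset _ _
    have hp := card_prs (blk S 2 i)
    rw [hUc] at hp
    have hp1 : (prs (blk S 2 i)).card = 1 := by omega
    obtain ⟨w, hw⟩ := card_eq_one.1 hp1
    have hwm : w ∈ prs (blk S 2 i) := by rw [hw]; exact mem_singleton_self _
    have hwm' := hwm
    rw [mem_prs] at hwm'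
    have h2 : (Q w.1 ×ˢ Q w.2).card = T ^ 2 := by
      rw [card_product, hQ _ (hUS hwm'.1.1), hQ _ (hUS hwm'.1.2), sq]
    rw [← h2]
    refine card_le_card_of_injOn (fun q => pt w q) ?_ ?_
    · intro q hq
      rw [mem_coe, mem_product] at hq
      exact pt_mem hX hQX hQY hUS hwm hq.1 hq.2
    · rintro ⟨a, b⟩ _ ⟨a', b'⟩ _ h
      simp only [pt, Prod.mk.injEq] at h ⊢
      have hne : w.2 - w.1 ≠ 0 := by
        intro h0
        linarith [hwm'.2]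
      have h3 : (w.2 - w.1) * (b : ℚ) = (w.2 - w.1) * b' := by
        have e5 : (a : ℚ) = a' + b' - b := by linarith [h.1]
        have e6 := h.2
        rw [e5] at e6
        linarith
      have h4 : (b : ℚ) = b' := mul_left_cancel₀ hne h3
      have h5 : (a : ℚ) = a' := by linarith [h.1]
      exact ⟨by exact_mod_cast h5, by exact_mod_cast h4⟩
  have hGpos := grid_pos (X := X) (Y := Y) hX
  have hsum : ∑ i ∈ range n, (sec (grid X Y) (blk S 2 i)).card ≤ (grid X Y).card := by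
    rw [← card_biUnion]
    · apply card_le_card
      intro p hp
      obtain ⟨i, _, hi⟩ := mem_biUnion.1 hp
      exact (mem_sec.1 hi).1
    · intro i _ j _ hij
      show Disjoint _ _
      rcases lt_or_gt_of_ne hij with h | h
      · exact sec_disjoint _ hGpos S 2 i j h
      · exact (sec_disjoint _ hGpos S 2 j i h).symm
  have h2 : n * T ^ 2 ≤ (X + X).card * (Y + Y).card := by
    calc n * T ^ 2 = ∑ _i ∈ range n, T ^ 2 := by rw [sum_const, card_range, smul_eq_mul]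
      _ ≤ _ := sum_le_sum hpart
      _ ≤ _ := hsum
      _ ≤ _ := card_grid X Y
  have h3 : S.card * T ^ 2 ≤ 3 * ((X + X).card * (Y + Y).card) := by
    calc S.card * T ^ 2 ≤ (3 * n) * T ^ 2 := Nat.mul_le_mul_right _ hSn
      _ = 3 * (n * T ^ 2) := by ring
      _ ≤ _ := Nat.mul_le_mul_left _ h2
  exact_mod_cast h3

/-- rich slopes -/
theorem rich (ε : ℝ) (hε : 0 < ε) : ∃ C : ℝ, 0 < C ∧
    ∀ (X Y : Finset ℤ) (S : Finset ℚ) (Q : ℚ → Finset ℤ) (T : ℕ),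
      (∀ x ∈ X, 0 < x) → (∀ y ∈ Y, 0 < y) → 1 ≤ T → S.Nonempty → (∀ l ∈ S, Q l ⊆ X) →
      (∀ l ∈ S, ∀ x ∈ Q l, ∃ y ∈ Y, (y : ℚ) = l * x) → (∀ l ∈ S, (Q l).card = T) →
      (S.card : ℝ) * (T : ℝ) ^ 2 ≤ C * ((X.card : ℝ) * Y.card) ^ (1 + ε) *
        (1 + ((X + X).card : ℝ) * (Y + Y).card / (S.card * (T : ℝ) ^ 2)) ^ C := by
  classical
  obtain ⟨C0, hC0, hcore⟩ := core ε hε
  obtain ⟨A, hA⟩ : ∃ A : ℝ, A = 256 * (2 ^ 22 : ℝ) ^ C0 * C0 * (19 : ℝ) ^ (9 + 40 * C0) := ⟨_, rfl⟩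
  have hA0 : 0 < A := by rw [hA]; positivity
  refine ⟨19 + (9 + 40 * C0) + A, by positivity, ?_⟩
  intro X Y S Q T hX hY hT hS hQX hQY hQ
  obtain ⟨C, hC⟩ : ∃ C, C = 19 + (9 + 40 * C0) + A := ⟨_, rfl⟩
  rw [← hC]
  obtain ⟨V, hV⟩ : ∃ V, V = (S.card : ℝ) * (T : ℝ) ^ 2 := ⟨_, rfl⟩
  obtain ⟨σ, hσ⟩ : ∃ σ, σ = ((X + X).card : ℝ) * (Y + Y).card := ⟨_, rfl⟩
  obtain ⟨N, hN⟩ : ∃ N, N = (X.card : ℝ) * Y.card := ⟨_, rfl⟩
  rw [← hV, ← hσ, ← hN]
  obtain ⟨l₀, hl₀⟩ := hS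
  have hTr : (1 : ℝ) ≤ T := by exact_mod_cast hT
  have hSc : (0 : ℝ) < S.card := by exact_mod_cast card_pos.2 ⟨l₀, hl₀⟩
  have hV0 : 0 < V := by rw [hV]; positivity
  have hσ0 : 0 ≤ σ := by rw [hσ]; positivity
  have hQne : ∀ l ∈ S, (Q l).Nonempty := fun l hl => by
    rw [← card_pos, hQ l hl]; omega
  have hTX : (T : ℝ) ≤ X.card := by
    rw [← hQ l₀ hl₀]; exact_mod_cast card_le_card (hQX l₀ hl₀)
  have hTY : (T : ℝ) ≤ Y.card := by
    rw [← hQ l₀ hl₀]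
    exact_mod_cast card_le_right (fun y hy => (hY y hy).ne') (hQne l₀ hl₀) (hQY l₀ hl₀)
  have hTN : (T : ℝ) ^ 2 ≤ N := by rw [hN, sq]; nlinarith
  have hN1 : 1 ≤ N := by nlinarith
  have hNε : N ≤ N ^ (1 + ε) := by
    calc N = N ^ (1 : ℝ) := (Real.rpow_one N).symm
      _ ≤ _ := Real.rpow_le_rpow_of_exponent_le hN1 (by linarith)
  obtain ⟨m, hm⟩ : ∃ m, m = 1 + σ / V := ⟨_, rfl⟩
  rw [← hm]
  have hm1 : 1 ≤ m := by
    rw [hm]
    have : 0 ≤ σ / V := by positivity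
    linarith
  have hmC : ∀ t : ℝ, t ≤ C → m ^ t ≤ m ^ C := fun t ht => Real.rpow_le_rpow_of_exponent_le hm1 ht
  obtain ⟨K, hK⟩ : ∃ K : ℕ, K = ⌈16 * (σ / V)⌉₊ + 2 := ⟨_, rfl⟩
  have hσV : 0 ≤ σ / V := by positivity
  have hK1 : 16 * (σ / V) + 1 ≤ K := by
    rw [hK]
    push_cast
    linarith [Nat.le_ceil (16 * (σ / V))]
  have hK2 : (K : ℝ) ≤ 19 * m := by
    rw [hK, hm]
    push_cast
    linarith [Nat.ceil_lt_add_one (by positivity : 0 ≤ 16 * (σ / V))]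
  have hKge : 2 ≤ K := by omega
  have hKr : (2 : ℝ) ≤ K := by exact_mod_cast hKge
  have hNpos : (0 : ℝ) < N ^ (1 + ε) := by positivity
  by_cases hcase : S.card < K
  · have h1 : (S.card : ℝ) ≤ K := by exact_mod_cast hcase.le
    have h2 : V ≤ (19 * m) * N := by
      rw [hV]
      exact mul_le_mul (h1.trans hK2) hTN (by positivity) (by positivity)
    have h3 : m ≤ m ^ C := by
      calc m = m ^ (1 : ℝ) := (Real.rpow_one m).symm
        _ ≤ m ^ C := hmC 1 (by rw [hC]; nlinarith)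
    calc V ≤ (19 * m) * N := h2
      _ ≤ (19 * m ^ C) * N ^ (1 + ε) := by gcongr
      _ = 19 * N ^ (1 + ε) * m ^ C := by ring
      _ ≤ C * N ^ (1 + ε) * m ^ C := by
          have : (19 : ℝ) ≤ C := by rw [hC]; nlinarith
          gcongr
  push Not at hcase
  obtain ⟨S', hS', hcard, hE⟩ := clusters X Y hX S Q T hT hQX hQY hQ K hKge hcase (σ / V)
    (by rw [← hσ, ← hV]; rw [div_mul_cancel₀ _ hV0.ne']) hK1
  -- Balog, Szemeredi and Gowers in each fibre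
  have hbsg : ∀ l : ℚ, ∃ B : Finset ℤ, l ∈ S' → B ⊆ Q l ∧ B.Nonempty ∧
      (T : ℝ) ≤ 8 * (K : ℝ) ^ 4 * B.card ∧
      ((B - B).card : ℝ) ≤ 2 ^ 22 * ((K : ℝ) ^ 4) ^ 10 * B.card := by
    intro l
    by_cases hl : l ∈ S'
    · obtain ⟨B, h1, h2, h3, h4⟩ := Pool.Agent.H217R3.AK.bsg (Q l) (hQne l (hS' hl))
        ((K : ℝ) ^ 4) (by positivity) (by rw [hQ l (hS' hl)]; exact hE l hl)
      rw [hQ l (hS' hl)] at h3
      exact ⟨B, fun _ => ⟨h1, h2, h3, h4⟩⟩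
    · exact ⟨∅, fun h => absurd h hl⟩
  choose B hB using hbsg
  have hc := hcore X Y S' B (fun x hx => (hX x hx).ne') (fun y hy => (hY y hy).ne') (fun l hl => (hB l hl).2.1)
    (fun l hl => (hB l hl).1.trans (hQX l (hS' hl)))
    (fun l hl x hx => hQY l (hS' hl) x ((hB l hl).1 hx))
  rw [← hN] at hc
  have hterm : ∀ l ∈ S', ((T : ℝ) / (8 * (K : ℝ) ^ 4)) ^ 2 * (2 ^ 22 * ((K : ℝ) ^ 4) ^ 10) ^ (-C0) ≤
      ((B l).card : ℝ) ^ 2 * (((B l - B l).card : ℝ) / (B l).card) ^ (-C0) := by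
    intro l hl
    obtain ⟨_, h2, h3, h4⟩ := hB l hl
    have cB : (0 : ℝ) < (B l).card := by exact_mod_cast h2.card_pos
    have h5 : (T : ℝ) / (8 * (K : ℝ) ^ 4) ≤ (B l).card := by
      rw [div_le_iff₀ (by positivity)]
      linarith
    have h6 : ((B l - B l).card : ℝ) / (B l).card ≤ 2 ^ 22 * ((K : ℝ) ^ 4) ^ 10 := by
      rw [div_le_iff₀ cB]; exact h4
    have h7 : (0 : ℝ) < ((B l - B l).card : ℝ) / (B l).card := by
      have : (0 : ℝ) < (B l - B l).card := by exact_mod_cast (h2.sub h2).card_pos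
      positivity
    refine mul_le_mul (pow_le_pow_left₀ (by positivity) h5 2)
      (Real.rpow_le_rpow_of_nonpos h7 h6 (by linarith)) (by positivity) (by positivity)
  have hsum := sum_le_sum hterm
  rw [sum_const, nsmul_eq_mul] at hsum
  have htot := hsum.trans hc
  have hD0 : (0 : ℝ) < 2 ^ 22 * ((K : ℝ) ^ 4) ^ 10 := by positivity
  rw [Real.rpow_neg hD0.le] at htot
  obtain ⟨D, hD⟩ : ∃ D, D = (2 ^ 22 * ((K : ℝ) ^ 4) ^ 10) ^ C0 := ⟨_, rfl⟩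
  rw [← hD] at htot
  have hDpos : 0 < D := by rw [hD]; positivity
  have h1 : (S'.card : ℝ) * (T : ℝ) ^ 2 ≤ 64 * (K : ℝ) ^ 8 * D * (C0 * N ^ (1 + ε)) := by
    have e : (S'.card : ℝ) * (T : ℝ) ^ 2 = 64 * (K : ℝ) ^ 8 * D *
        (S'.card * (((T : ℝ) / (8 * (K : ℝ) ^ 4)) ^ 2 * D⁻¹)) := by
      field_simp
      ring
    rw [e]
    exact mul_le_mul_of_nonneg_left htot (by positivity)
  have h2 : V ≤ 256 * (K : ℝ) ^ 9 * D * (C0 * N ^ (1 + ε)) := by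
    calc V = S.card * (T : ℝ) ^ 2 := hV
      _ ≤ (4 * K * S'.card) * (T : ℝ) ^ 2 := mul_le_mul_of_nonneg_right hcard (by positivity)
      _ = 4 * K * ((S'.card : ℝ) * (T : ℝ) ^ 2) := by ring
      _ ≤ 4 * K * (64 * (K : ℝ) ^ 8 * D * (C0 * N ^ (1 + ε))) :=
          mul_le_mul_of_nonneg_left h1 (by positivity)
      _ = _ := by ring
  have hDK : (K : ℝ) ^ 9 * D ≤ (2 ^ 22 : ℝ) ^ C0 * ((19 : ℝ) ^ (9 + 40 * C0) * m ^ (9 + 40 * C0)) := by
    have e1 : (K : ℝ) ^ 9 * D = (2 ^ 22 : ℝ) ^ C0 * (K : ℝ) ^ (9 + 40 * C0) := by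
      have e2 : ((K : ℝ) ^ 4) ^ 10 = (K : ℝ) ^ (40 : ℝ) := by
        rw [← pow_mul, ← Real.rpow_natCast]; norm_num
      have e3 : (K : ℝ) ^ 9 = (K : ℝ) ^ (9 : ℝ) := by
        rw [← Real.rpow_natCast]; norm_num
      rw [hD, Real.mul_rpow (by positivity) (by positivity), e2, ← Real.rpow_mul (by positivity),
        e3, Real.rpow_add (by positivity)]
      ring
    rw [e1, ← Real.mul_rpow (by norm_num) (by linarith)]
    refine mul_le_mul_of_nonneg_left ?_ (by positivity)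
    exact Real.rpow_le_rpow (by positivity) hK2 (by positivity)
  calc V ≤ 256 * (K : ℝ) ^ 9 * D * (C0 * N ^ (1 + ε)) := h2
    _ = 256 * ((K : ℝ) ^ 9 * D) * (C0 * N ^ (1 + ε)) := by ring
    _ ≤ 256 * ((2 ^ 22 : ℝ) ^ C0 * ((19 : ℝ) ^ (9 + 40 * C0) * m ^ (9 + 40 * C0))) *
        (C0 * N ^ (1 + ε)) := by gcongr
    _ = A * N ^ (1 + ε) * m ^ (9 + 40 * C0) := by rw [hA]; ring
    _ ≤ C * N ^ (1 + ε) * m ^ C := by
        have h3 : A ≤ C := by rw [hC]; nlinarith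
        have h5 : 0 ≤ C := hA0.le.trans h3
        have h4 := hmC (9 + 40 * C0) (by rw [hC]; linarith)
        gcongr

end Pool.Agent.Zk30
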