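import Pool.Agent.Zk30.Multi

/-!
# The sparse rectangle inequality

`B l` is a subset of `X` and `l • B l` is a subset of `Y` for every rational `l` in `S`. Then the sum
over `l` of the squares of the exponentials of the potentials of the sets `B l` is at most
`8 (|X| |Y|) ^ (1 + ε)`.
-/

set_option autoImplicit false

namespace Pool.Agent.Zk30

open Finset H633R5.FS
open scoped Pointwise

theorem val_mul (p : ℕ) [Fact p.Prime] {l : ℚ} {x y : ℤ} (hx : x ≠ 0) (hy : y ≠ 0)
    (h : (y : ℚ) = l * x) : (padicValInt p y : ℤ) = padicValRat p l + padicValInt p x := by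
  have hl : l ≠ 0 := by
    rintro rfl
    rw [zero_mul] at h
    exact hy (by exact_mod_cast h)
  have hx' : (x : ℚ) ≠ 0 := by exact_mod_cast hx
  have h1 := padicValRat.mul (p := p) hl hx'
  rw [← h, padicValRat.of_int, padicValRat.of_int] at h1
  exact h1

theorem tl_mul (N : ℕ) (k : ℝ) (a : ℕ → ℝ) (i : ℕ) : tl N (fun j => k * a j) i = k * tl N a i := by
  unfold tl
  rw [mul_sum]
  refine sum_congr rfl fun j _ => ?_
  split_ifs
  · rfl
  · simp

theorem sys (ε : ℝ) (hε : 0 < ε) : ∃ c : ℝ, 0 < c ∧ ∀ e : ℝ, 0 < e → e ≤ 1 →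
    ∀ K : ℝ, K = Real.exp (c / e) →
    ∀ (n : ℕ) (X Y : Finset ℤ) (S : Finset ℚ) (B R : ℚ → Finset ℤ), X.card + Y.card = n →
      (∀ x ∈ X, x ≠ 0) → (∀ y ∈ Y, y ≠ 0) → (∀ l ∈ S, (B l).Nonempty) →
      (∀ l ∈ S, (R l).Nonempty) → (∀ l ∈ S, B l ⊆ X) →
      (∀ l ∈ S, ∀ x ∈ B l, ∃ y ∈ Y, (y : ℚ) = l * x) →
      (∀ l ∈ S, ∀ q : ℕ, q.Prime → (q : ℝ) < Real.exp (c / e) → ∀ x ∈ B l, ∀ x' ∈ B l,
        padicValInt q x = padicValInt q x') →
      ∑ l ∈ S, Real.exp (F 1 K e (B l) (R l)) ^ 2 ≤ 8 * ((X.card : ℝ) * Y.card) ^ (1 + ε) := by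
  classical
  obtain ⟨δ, hδ⟩ : ∃ δ : ℝ, δ = ε * Real.exp (-(1 / ε)) / 4 := ⟨_, rfl⟩
  have hδ0 : 0 < δ := by rw [hδ]; positivity
  have hδ2 : 2 * δ ≤ ε * Real.exp (-(1 / ε)) / 2 := by rw [hδ]; linarith
  obtain ⟨c, hc, hmulti⟩ := multi δ hδ0
  refine ⟨c, hc, ?_⟩
  intro e he he1 K hK n
  have hK0 : 0 < K := by rw [hK]; exact Real.exp_pos _
  have hs : (0 : ℝ) < 1 + ε := by linarith
  induction n using Nat.strong_induction_on with
  | _ n ih =>
  intro X Y S B R hn hX hY hB hR hBX hBY hsm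
  by_cases hconst : ∀ p : ℕ, p.Prime → (∀ x ∈ X, ∀ x' ∈ X, padicValInt p x = padicValInt p x') ∧
      (∀ y ∈ Y, ∀ y' ∈ Y, padicValInt p y = padicValInt p y')
  · have hXeq : ∀ x ∈ X, ∀ x' ∈ X, x.natAbs = x'.natAbs := by
      intro x hx x' hx'
      exact natAbs_eq_of_padic (hX x hx) (hX x' hx') (fun p hp => (hconst p hp).1 x hx x' hx')
    have hYeq : ∀ x ∈ Y, ∀ x' ∈ Y, x.natAbs = x'.natAbs := by
      intro x hx x' hx'
      exact natAbs_eq_of_padic (hY x hx) (hY x' hx') (fun p hp => (hconst p hp).2 x hx x' hx')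
    rcases S.eq_empty_or_nonempty with hS | ⟨l₀, hl₀⟩
    · rw [hS]; simp only [sum_empty]; positivity
    · have hcastabs : ∀ a b : ℤ, a.natAbs = b.natAbs → |(a : ℚ)| = |(b : ℚ)| := by
        intro a b hab
        have h1 : |a| = |b| := by
          rw [Int.abs_eq_natAbs, Int.abs_eq_natAbs, hab]
        exact_mod_cast congrArg (fun z : ℤ => (z : ℚ)) h1
      have hSsub : S ⊆ {l₀, -l₀} := by
        intro l hl
        obtain ⟨x, hx⟩ := hB l hl
        obtain ⟨x', hx'⟩ := hB l₀ hl₀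
        obtain ⟨y, hy, hxy⟩ := hBY l hl x hx
        obtain ⟨y', hy', hxy'⟩ := hBY l₀ hl₀ x' hx'
        have e1 := hcastabs _ _ (hXeq x (hBX l hl hx) x' (hBX l₀ hl₀ hx'))
        have e2 := hcastabs _ _ (hYeq y hy y' hy')
        have hx0 : |(x' : ℚ)| ≠ 0 := by
          rw [abs_ne_zero]
          exact_mod_cast (hX x' (hBX l₀ hl₀ hx'))
        rw [hxy, hxy', abs_mul, abs_mul, e1] at e2
        have e3 := mul_right_cancel₀ hx0 e2
        rw [mem_insert, mem_singleton]
        exact abs_eq_abs.1 e3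
      have hS2 : S.card ≤ 2 := (card_le_card hSsub).trans card_le_two
      have hB2 : ∀ l ∈ S, Real.exp (F 1 K e (B l) (R l)) ^ 2 ≤ 4 := by
        intro l hl
        have hB1 : (B l).card ≤ 2 :=
          H633R5.FS.card_le_two fun a ha b hb => hXeq a (hBX l hl ha) b (hBX l hl hb)
        have h1 : F 1 K e (B l) (R l) ≤ Real.log 2 := by
          refine (F_le 1 K e hK0.le he.le _ _ (hB l hl) (hR l hl)).trans ?_
          rw [one_mul]
          exact Real.log_le_log (by exact_mod_cast (hB l hl).card_pos) (by exact_mod_cast hB1)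
        have h2 : Real.exp (F 1 K e (B l) (R l)) ≤ 2 := by
          rw [← Real.exp_log (by norm_num : (0 : ℝ) < 2)]
          exact Real.exp_le_exp.2 h1
        calc Real.exp (F 1 K e (B l) (R l)) ^ 2 ≤ 2 ^ 2 :=
              pow_le_pow_left₀ (Real.exp_pos _).le h2 2
          _ = 4 := by norm_num
      have hsum : ∑ l ∈ S, Real.exp (F 1 K e (B l) (R l)) ^ 2 ≤ 8 := by
        refine (sum_le_sum hB2).trans ?_
        rw [sum_const, nsmul_eq_mul]
        have : (S.card : ℝ) ≤ 2 := by exact_mod_cast hS2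
        linarith
      obtain ⟨x, hx⟩ := hB l₀ hl₀
      obtain ⟨y, hy, _⟩ := hBY l₀ hl₀ x hx
      have h3 : (1 : ℝ) ≤ X.card := by exact_mod_cast card_pos.2 ⟨x, hBX l₀ hl₀ hx⟩
      have h4 : (1 : ℝ) ≤ Y.card := by exact_mod_cast card_pos.2 ⟨y, hy⟩
      have h5 : 1 ≤ ((X.card : ℝ) * Y.card) ^ (1 + ε) := Real.one_le_rpow (by nlinarith) hs.le
      linarith
  push Not at hconst
  obtain ⟨p, hp, hpc⟩ := hconst
  have : Fact p.Prime := ⟨hp⟩
  obtain ⟨N, hN⟩ : ∃ N : ℕ, ∀ x ∈ X, padicValInt p x < N :=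
    ⟨X.sup (fun x => padicValInt p x) + 1, fun x hx => Nat.lt_succ_of_le
      (le_sup (f := fun x => padicValInt p x) hx)⟩
  obtain ⟨k, hk⟩ : ∃ k : ℚ → ℕ, k = fun l => ((N : ℤ) + padicValRat p l).toNat := ⟨_, rfl⟩
  have hkl : ∀ l ∈ S, ∀ x ∈ B l, ∀ y ∈ Y, (y : ℚ) = l * x →
      padicValInt p y + N = padicValInt p x + k l := by
    intro l hl x hx y hy hxy
    have h1 := val_mul p (hX x (hBX l hl hx)) (hY y hy) hxy
    have h2 := hN x (hBX l hl hx)
    rw [hk]
    simp only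
    omega
  -- the classes of one set
  have hsplit : ∀ l : ℚ, ∃ R' : ℕ → Finset ℤ, l ∈ S → (∀ i, (R' i).Nonempty) ∧
        Real.exp (F 1 K e (B l) (R l)) ^ 2 ≤
        ∑ i ∈ range N, ((uu K e (cl p i (B l)) (R' i)) ^ 2 +
          2 * min (uu K e (cl p i (B l)) (R' i) *
            tl N (fun j => uu K e (cl p j (B l)) (R' j)) i)
            (δ * (uu K e (cl p i (B l)) (R' i)) ^ 2)) := by
    intro l
    by_cases hl : l ∈ S
    swap
    · exact ⟨fun _ => ∅, fun h => absurd h hl⟩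
    by_cases hpe : Real.exp (c / e) ≤ p
    · obtain ⟨R', h1, _, h3⟩ := hmulti e he he1 K hK p hpe N _ (B l) (R l) rfl (hB l hl) (hR l hl)
        (fun x hx => hX x (hBX l hl hx)) (fun x hx => hN x (hBX l hl hx))
      exact ⟨R', fun _ => ⟨h1, h3⟩⟩
    · push Not at hpe
      obtain ⟨x₀, hx₀⟩ := hB l hl
      obtain ⟨_, h2⟩ := multi_const K e δ hδ0.le p N (padicValInt p x₀) (B l) (R l) ⟨x₀, hx₀⟩
        (fun x hx => hsm l hl p hp hpe x hx x₀ hx₀) (hN x₀ (hBX l hl hx₀))
      exact ⟨fun _ => R l, fun _ => ⟨fun _ => hR l hl, h2⟩⟩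
  choose R' hR' using hsplit
  obtain ⟨u, hu⟩ : ∃ u : ℚ → ℕ → ℝ, u = fun l i => uu K e (cl p i (B l)) (R' l i) := ⟨_, rfl⟩
  have hu0 : ∀ l i, 0 ≤ u l i := fun l i => by rw [hu]; exact uu_nonneg _ _ _ _
  obtain ⟨xc, hxc⟩ : ∃ xc : ℕ → ℝ, xc = fun i => ((cl p i X).card : ℝ) := ⟨_, rfl⟩
  obtain ⟨yc, hyc⟩ : ∃ yc : ℕ → ℝ, yc = fun j =>
    ((Y.filter fun y => padicValInt p y + N = j).card : ℝ) := ⟨_, rfl⟩
  have hxc0 : ∀ i, 0 ≤ xc i := fun i => by rw [hxc]; positivity
  have hyc0 : ∀ i, 0 ≤ yc i := fun i => by rw [hyc]; positivity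
  obtain ⟨N2, hN2⟩ : ∃ N2 : ℕ, ∀ l ∈ S, k l + N ≤ N2 :=
    ⟨S.sup k + N, fun l hl => Nat.add_le_add_right (le_sup hl) _⟩
  have hsumX : ∑ i ∈ range N, xc i = X.card := by
    rw [hxc]
    have h1 := card_eq_sum_card_fiberwise (f := fun x => padicValInt p x) (s := X) (t := range N)
      (fun x hx => by
        rw [mem_coe, mem_range]
        exact hN x hx)
    rw [h1]
    push_cast
    rfl
  have hsumY : ∑ j ∈ range N2, yc j ≤ Y.card := by
    rw [hyc]
    have h1 : (Y.filter fun y => padicValInt p y + N < N2).card =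
        ∑ j ∈ range N2, (Y.filter fun y => padicValInt p y + N = j).card := by
      rw [card_eq_sum_card_fiberwise (f := fun y => padicValInt p y + N)
        (s := Y.filter fun y => padicValInt p y + N < N2) (t := range N2)
        (fun y hy => by
          rw [mem_coe, mem_filter] at hy
          rw [mem_coe, mem_range]
          exact hy.2)]
      refine sum_congr rfl fun j hj => ?_
      rw [filter_filter]
      congr 1
      ext y
      rw [mem_filter, mem_filter]
      rw [mem_range] at hj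
      constructor
      · rintro ⟨a, _, b⟩; exact ⟨a, b⟩
      · rintro ⟨a, b⟩; exact ⟨a, by omega, b⟩
    have h2 : (Y.filter fun y => padicValInt p y + N < N2).card ≤ Y.card :=
      card_le_card (filter_subset _ _)
    rw [h1] at h2
    show ∑ j ∈ range N2, (((Y.filter fun y => padicValInt p y + N = j).card : ℕ) : ℝ) ≤ Y.card
    exact_mod_cast h2
  -- the induction hypothesis
  have hclass : ∀ m i, i < N → ∑ l ∈ S.filter (fun l => k l = m), (u l i) ^ 2 ≤
      (8 * (xc i) ^ (1 + ε)) * (yc (i + m)) ^ (1 + ε) := by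
    intro m i _
    have e1 : ∑ l ∈ S.filter (fun l => k l = m), (u l i) ^ 2 =
        ∑ l ∈ (S.filter (fun l => k l = m)).filter (fun l => (cl p i (B l)).Nonempty),
          Real.exp (F 1 K e (cl p i (B l)) (R' l i)) ^ 2 := by
      rw [sum_filter (fun l => (cl p i (B l)).Nonempty)]
      refine sum_congr rfl fun l _ => ?_
      rw [hu]
      simp only
      split_ifs with h
      · rw [uu_of h]
      · rw [uu_empty h]; norm_num
    have hlt : (cl p i X).card + (Y.filter fun y => padicValInt p y + N = i + m).card < n := by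
      have h1 : (cl p i X).card ≤ X.card := card_le_card (cl_subset _ _ _)
      have h2 : (Y.filter fun y => padicValInt p y + N = i + m).card ≤ Y.card :=
        card_le_card (filter_subset _ _)
      by_contra hcon
      have h3 : (cl p i X).card = X.card := by omega
      have h4 : (Y.filter fun y => padicValInt p y + N = i + m).card = Y.card := by omega
      have h5 : cl p i X = X := eq_of_subset_of_card_le (cl_subset _ _ _) h3.ge
      have h6 : (Y.filter fun y => padicValInt p y + N = i + m) = Y :=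
        eq_of_subset_of_card_le (filter_subset _ _) h4.ge
      have h7 : ∀ x ∈ X, padicValInt p x = i := fun x hx => by
        rw [← h5] at hx; exact (mem_cl.1 hx).2
      have h8 : ∀ y ∈ Y, padicValInt p y + N = i + m := fun y hy => by
        rw [← h6] at hy; exact (mem_filter.1 hy).2
      obtain ⟨y, hy, y', hy', hne⟩ := hpc (fun x hx x' hx' => by rw [h7 x hx, h7 x' hx'])
      have := h8 y hy
      have := h8 y' hy'
      omega
    have h1 := ih _ hlt (cl p i X) (Y.filter fun y => padicValInt p y + N = i + m)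
      ((S.filter (fun l => k l = m)).filter (fun l => (cl p i (B l)).Nonempty))
      (fun l => cl p i (B l)) (fun l => R' l i) rfl
      (fun x hx => hX x (cl_subset _ _ _ hx)) (fun y hy => hY y (filter_subset _ _ hy))
      (fun l hl => (mem_filter.1 hl).2)
      (fun l hl => (hR' l (mem_filter.1 (mem_filter.1 hl).1).1).1 i)
      (fun l hl x hx => by
        rw [mem_cl] at hx ⊢
        exact ⟨hBX l (mem_filter.1 (mem_filter.1 hl).1).1 hx.1, hx.2⟩)
      (fun l hl x hx => by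
        rw [mem_cl] at hx
        have hl' := (mem_filter.1 (mem_filter.1 hl).1)
        obtain ⟨y, hy, hxy⟩ := hBY l hl'.1 x hx.1
        refine ⟨y, mem_filter.2 ⟨hy, ?_⟩, hxy⟩
        rw [hkl l hl'.1 x hx.1 y hy hxy, hx.2, hl'.2])
      (fun l hl q hq hqe x hx x' hx' => hsm l (mem_filter.1 (mem_filter.1 hl).1).1 q hq hqe x
        (cl_subset _ _ _ hx) x' (cl_subset _ _ _ hx'))
    rw [e1]
    refine h1.trans (le_of_eq ?_)
    rw [hxc, hyc, Real.mul_rpow (Nat.cast_nonneg _) (Nat.cast_nonneg _)]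
    ring
  have hdbl := dbl S k u hu0 N N2 hN2 (fun i => 8 * (xc i) ^ (1 + ε)) (fun j => (yc j) ^ (1 + ε))
    (fun i => by have := Real.rpow_nonneg (hxc0 i) (1 + ε); positivity) (fun j => Real.rpow_nonneg (hyc0 j) _) δ hδ0.le hclass
  have hmx := many_term ε hε (2 * δ) (by positivity) hδ2 N xc hxc0
  have hmy := many_term ε hε (2 * δ) (by positivity) hδ2 N2 yc hyc0
  calc ∑ l ∈ S, Real.exp (F 1 K e (B l) (R l)) ^ 2
      ≤ ∑ l ∈ S, ∑ i ∈ range N, ((u l i) ^ 2 + 2 * min (u l i * tl N (u l) i)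
          (δ * (u l i) ^ 2)) := by
        refine sum_le_sum fun l hl => ?_
        rw [hu]
        exact (hR' l hl).2
    _ ≤ _ := hdbl
    _ ≤ (8 * (∑ i ∈ range N, xc i) ^ (1 + ε)) * (∑ j ∈ range N2, yc j) ^ (1 + ε) := by
        have e8 : ∑ i ∈ range N, (8 * (xc i) ^ (1 + ε) +
            min (tl N (fun i => 8 * (xc i) ^ (1 + ε)) i) (2 * δ * (8 * (xc i) ^ (1 + ε)))) =
            8 * ∑ i ∈ range N, ((xc i) ^ (1 + ε) +
            min (tl N (fun i => (xc i) ^ (1 + ε)) i) (2 * δ * (xc i) ^ (1 + ε))) := by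
          rw [mul_sum]
          refine sum_congr rfl fun i _ => ?_
          rw [tl_mul, mul_add, mul_min_of_nonneg _ _ (by norm_num : (0 : ℝ) ≤ 8)]
          congr 2
          ring
        rw [e8]
        refine mul_le_mul (mul_le_mul_of_nonneg_left hmx (by norm_num)) hmy ?_
          (mul_nonneg (by norm_num) (Real.rpow_nonneg (sum_nonneg fun i _ => hxc0 i) _))
        refine sum_nonneg fun j _ => ?_
        have h1 : 0 ≤ (yc j) ^ (1 + ε) := Real.rpow_nonneg (hyc0 j) _
        have h2 : 0 ≤ min (tl N2 (fun j => (yc j) ^ (1 + ε)) j) (2 * δ * (yc j) ^ (1 + ε)) :=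
          le_min (tl_nonneg (fun j => Real.rpow_nonneg (hyc0 j) _) _) (by positivity)
        linarith
    _ ≤ (8 * (X.card : ℝ) ^ (1 + ε)) * (Y.card : ℝ) ^ (1 + ε) := by
        rw [hsumX]
        refine mul_le_mul_of_nonneg_left ?_ (by positivity)
        exact Real.rpow_le_rpow (sum_nonneg fun j _ => hyc0 j) hsumY hs.le
    _ = _ := by rw [Real.mul_rpow (Nat.cast_nonneg _) (Nat.cast_nonneg _)]; ring

end Pool.Agent.Zk30
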