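import Pool.Agent.Zk30.Dbl
import Pool.Agent.H633R5.FS.Fin

/-!
# Splitting one cell at one prime: first and second moments of the exponential of the potential
-/

set_option autoImplicit false

namespace Pool.Agent.Zk30

open Finset H633R5.FS
open scoped Pointwise

/-- weighted arithmetic and geometric mean -/
theorem exp_conv {x P Q : ℝ} (hx : 0 < x) (hx1 : x < 1) :
    Real.exp ((1 - x) * P + x * Q) ≤ (1 - x) * Real.exp P + x * Real.exp Q := by
  have h := convexOn_exp.2 (Set.mem_univ P) (Set.mem_univ Q) (by linarith : 0 ≤ 1 - x) hx.le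
    (by ring)
  simpa [smul_eq_mul] using h

theorem exp_first {f fl fh x : ℝ} (hx : 0 < x) (hx1 : x < 1)
    (h : f ≤ (1 - x) * fl + x * fh + Psi x (1 - x)) :
    Real.exp f ≤ Real.exp fl + Real.exp fh := by
  have h1 : 0 < 1 - x := by linarith
  have e : (1 - x) * fl + x * fh + Psi x (1 - x) =
      (1 - x) * (fl + Real.log (1 / (1 - x))) + x * (fh + Real.log (1 / x)) := by
    rw [Psi_one]; ring
  rw [e] at h
  refine (Real.exp_le_exp.2 h).trans ((exp_conv hx hx1).trans (le_of_eq ?_))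
  rw [Real.exp_add, Real.exp_add, Real.exp_log (by positivity), Real.exp_log (by positivity)]
  field_simp

theorem exp_second {f fl fh x D : ℝ} (hx : 0 < x) (hx1 : x ≤ 1 / 2)
    (h : f ≤ (1 - x) * fl + x * fh + Psi x (1 - x)) (hD : Real.exp (4 * Psi x (1 - x)) ≤ 1 + D) :
    Real.exp f ^ 2 ≤ (1 + D) * Real.exp fl ^ 2 + Real.exp fh ^ 2 := by
  have h1 : 0 < 1 - x := by linarith
  have hP : 0 ≤ Psi x (1 - x) := Psi_nonneg hx.le h1.le
  have hl : 0 ≤ Real.log (1 / x) := Real.log_nonneg (by rw [le_div_iff₀ hx]; linarith)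
  have e : (1 - x) * (2 * fl + 4 * Psi x (1 - x)) + x * (2 * fh + Real.log (1 / x)) =
      2 * ((1 - x) * fl + x * fh) + ((1 - x) * (4 * Psi x (1 - x)) + x * Real.log (1 / x)) := by
    ring
  have h2 : 2 * f ≤ (1 - x) * (2 * fl + 4 * Psi x (1 - x)) + x * (2 * fh + Real.log (1 / x)) := by
    rw [e]
    have h3 : 2 * Psi x (1 - x) ≤ (1 - x) * (4 * Psi x (1 - x)) := by nlinarith
    have h4 : 0 ≤ x * Real.log (1 / x) := by positivity
    linarith
  have e2 : ∀ t : ℝ, Real.exp t ^ 2 = Real.exp (2 * t) := fun t => by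
    rw [← Real.exp_nat_mul]; norm_num
  rw [e2, e2, e2]
  refine (Real.exp_le_exp.2 h2).trans ((exp_conv hx (by linarith)).trans ?_)
  rw [Real.exp_add, Real.exp_add, Real.exp_log (by positivity)]
  have h5 : x * (Real.exp (2 * fh) * (1 / x)) = Real.exp (2 * fh) := by field_simp
  rw [h5]
  have h6 : (1 - x) * (Real.exp (2 * fl) * Real.exp (4 * Psi x (1 - x))) ≤
      1 * (Real.exp (2 * fl) * (1 + D)) := by
    apply mul_le_mul (by linarith) _ (by positivity) (by norm_num)
    exact mul_le_mul_of_nonneg_left hD (Real.exp_pos _).le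
  linarith

theorem exists_xg (D : ℝ) (hD : 0 < D) : ∃ η : ℝ, 0 < η ∧ η ≤ 1 / 2 ∧ ∀ x : ℝ, 0 < x → x < η →
    Real.exp (4 * Psi x (1 - x)) ≤ 1 + D := by
  have hl : 0 < Real.log (1 + D) := Real.log_pos (by linarith)
  refine ⟨min (1 / 2) ((Real.log (1 + D) / 12) ^ 2), by positivity, min_le_left _ _, ?_⟩
  intro x hx hxη
  have h2 : x < 1 / 2 := lt_of_lt_of_le hxη (min_le_left _ _)
  have h3 : x < (Real.log (1 + D) / 12) ^ 2 := lt_of_lt_of_le hxη (min_le_right _ _)
  have h4 := Psi_le hx (by linarith : x < 1)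
  have hsq : 0 < Real.sqrt x := Real.sqrt_pos.2 hx
  have hs2 : Real.sqrt x * Real.sqrt x = x := Real.mul_self_sqrt hx.le
  have h5 : Real.log (1 / x) ≤ 2 / Real.sqrt x := by
    have h6 := Real.log_le_sub_one_of_pos (show 0 < 1 / Real.sqrt x by positivity)
    have h7 : Real.log (1 / x) = 2 * Real.log (1 / Real.sqrt x) := by
      rw [one_div, one_div, Real.log_inv, Real.log_inv, Real.log_sqrt hx.le]; ring
    rw [h7]
    have : 2 / Real.sqrt x = 2 * (1 / Real.sqrt x) := by ring
    rw [this]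
    linarith
  have h6 : Real.sqrt x ≤ 1 := Real.sqrt_le_one.2 (by linarith)
  have h7 : Psi x (1 - x) ≤ 3 * Real.sqrt x := by
    have h8 : x * (1 + Real.log (1 / x)) ≤ x * (1 + 2 / Real.sqrt x) :=
      mul_le_mul_of_nonneg_left (by linarith) hx.le
    have h9 : x * (1 + 2 / Real.sqrt x) = x + 2 * Real.sqrt x := by
      have : x * (2 / Real.sqrt x) = 2 * Real.sqrt x := by
        rw [mul_div_assoc', div_eq_iff hsq.ne']
        calc x * 2 = (Real.sqrt x * Real.sqrt x) * 2 := by rw [hs2]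
          _ = _ := by ring
      linarith
    nlinarith
  have h8 : Real.sqrt x ≤ Real.log (1 + D) / 12 := by
    rw [← Real.sqrt_sq (by positivity : 0 ≤ Real.log (1 + D) / 12)]
    exact Real.sqrt_le_sqrt h3.le
  rw [← Real.le_log_iff_exp_le (by linarith)]
  linarith

/-- the binary split -/
theorem split2 (δ : ℝ) (hδ : 0 < δ) : ∃ c : ℝ, 0 < c ∧ ∀ e : ℝ, 0 < e → e ≤ 1 →
    ∀ K : ℝ, K = Real.exp (c / e) → ∀ (p : ℕ) [Fact p.Prime], Real.exp (c / e) ≤ p →
    ∀ (C R : Finset ℤ), R.Nonempty → (∀ c ∈ C, c ≠ 0) → ∀ t : ℕ,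
      (∀ c ∈ C, t ≤ padicValInt p c) → (hi p t C).Nonempty → (lo p t C).Nonempty →
      ∃ R' R'' : Finset ℤ, R'.Nonempty ∧ R''.Nonempty ∧
        Real.exp (F 1 K e C R) ≤ Real.exp (F 1 K e (lo p t C) R') +
          Real.exp (F 1 K e (hi p t C) R'') ∧
        Real.exp (F 1 K e C R) ^ 2 ≤ Real.exp (F 1 K e (lo p t C) R') ^ 2 +
          Real.exp (F 1 K e (hi p t C) R'') ^ 2 +
          2 * min (Real.exp (F 1 K e (lo p t C) R') * Real.exp (F 1 K e (hi p t C) R''))
            (δ * Real.exp (F 1 K e (lo p t C) R') ^ 2) := by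
  obtain ⟨η, hη, hη2, hηx⟩ := exists_xg (2 * δ) (by positivity)
  obtain ⟨c, hc, hcell⟩ := cell 1 η one_pos le_rfl hη
  refine ⟨c, hc, ?_⟩
  intro e he he1 K hK p _ hp C R hR h0 t ht hhi hlo
  obtain ⟨x, hx⟩ : ∃ x : ℝ, x = ((hi p t C).card : ℝ) / C.card := ⟨_, rfl⟩
  obtain ⟨R', R'', hR', hR'', h1, h2⟩ := hcell e he he1 K hK p hp C R hR h0 t ht hhi hlo x hx
  refine ⟨R', R'', hR', hR'', ?_⟩
  have chi : (0 : ℝ) < (hi p t C).card := by exact_mod_cast hhi.card_pos
  have clo : (0 : ℝ) < (lo p t C).card := by exact_mod_cast hlo.card_pos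
  have hcardC : ((hi p t C).card : ℝ) + (lo p t C).card = C.card := by
    exact_mod_cast card_hi_lo p t C
  have cC : (0 : ℝ) < C.card := by linarith
  have hx0 : 0 < x := by rw [hx]; positivity
  have hx' : 1 - x = ((lo p t C).card : ℝ) / C.card := by
    rw [hx]; field_simp; linarith
  have hx1 : 0 < 1 - x := by rw [hx']; positivity
  set f := F 1 K e C R with hf
  set fl := F 1 K e (lo p t C) R' with hfl
  set fh := F 1 K e (hi p t C) R'' with hfh
  have h3 : f ≤ (1 - x) * fl + x * fh + Psi x (1 - x) := by linarith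
  have h4 := exp_first hx0 (by linarith) h3
  refine ⟨h4, ?_⟩
  have pf := Real.exp_pos f
  have pl := Real.exp_pos fl
  have ph := Real.exp_pos fh
  rw [mul_min_of_nonneg _ _ (by norm_num : (0 : ℝ) ≤ 2), ← min_add_add_left]
  refine le_min ?_ ?_
  · nlinarith
  · by_cases hxg : η ≤ x
    · have h5 := h2 hxg
      have h6 : f ≤ (1 - x) * fl + x * fh := by linarith
      have h7 : f ≤ max fl fh := by
        refine h6.trans ?_
        have := mul_le_mul_of_nonneg_left (le_max_left fl fh) hx1.le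
        have := mul_le_mul_of_nonneg_left (le_max_right fl fh) hx0.le
        linarith
      have h8 : Real.exp f ^ 2 ≤ Real.exp fl ^ 2 + Real.exp fh ^ 2 := by
        rcases le_total fl fh with h9 | h9
        · rw [max_eq_right h9] at h7
          have := pow_le_pow_left₀ pf.le (Real.exp_le_exp.2 h7) 2
          nlinarith
        · rw [max_eq_left h9] at h7
          have := pow_le_pow_left₀ pf.le (Real.exp_le_exp.2 h7) 2
          nlinarith
      have : 0 ≤ 2 * (δ * Real.exp fl ^ 2) := by positivity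
      linarith
    · push Not at hxg
      have h5 := exp_second hx0 (by linarith) h3 (hηx x hx0 hxg)
      linarith

/-- the elements with valuation `i` -/
def cl (p i : ℕ) (C : Finset ℤ) : Finset ℤ := C.filter fun c => padicValInt p c = i

theorem mem_cl {p i : ℕ} {C : Finset ℤ} {c : ℤ} : c ∈ cl p i C ↔ c ∈ C ∧ padicValInt p c = i :=
  mem_filter

theorem cl_subset (p i : ℕ) (C : Finset ℤ) : cl p i C ⊆ C := filter_subset _ _

/-- the exponential of the potential, zero for the empty set -/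
noncomputable def uu (K e : ℝ) (C R : Finset ℤ) : ℝ :=
  open Classical in if C.Nonempty then Real.exp (F 1 K e C R) else 0

theorem uu_of {K e : ℝ} {C R : Finset ℤ} (h : C.Nonempty) : uu K e C R = Real.exp (F 1 K e C R) :=
  by unfold uu; rw [if_pos h]

theorem uu_empty {K e : ℝ} {C R : Finset ℤ} (h : ¬ C.Nonempty) : uu K e C R = 0 := by
  unfold uu; rw [if_neg h]

theorem uu_nonneg (K e : ℝ) (C R : Finset ℤ) : 0 ≤ uu K e C R := by
  unfold uu; split_ifs
  · exact (Real.exp_pos _).le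
  · exact le_rfl

/-- constant valuations -/
theorem multi_const (K e δ : ℝ) (hδ : 0 ≤ δ) (p N t : ℕ) (C R : Finset ℤ) (hC : C.Nonempty)
    (ht : ∀ c ∈ C, padicValInt p c = t) (htN : t < N) :
    Real.exp (F 1 K e C R) ≤ ∑ i ∈ range N, uu K e (cl p i C) R ∧
    Real.exp (F 1 K e C R) ^ 2 ≤ ∑ i ∈ range N, ((uu K e (cl p i C) R) ^ 2 +
      2 * min (uu K e (cl p i C) R * tl N (fun j => uu K e (cl p j C) R) i)
        (δ * (uu K e (cl p i C) R) ^ 2)) := by
  have e1 : cl p t C = C := by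
    ext c; rw [mem_cl]
    exact ⟨fun h => h.1, fun h => ⟨h, ht c h⟩⟩
  have e2 : uu K e (cl p t C) R = Real.exp (F 1 K e C R) := by rw [e1, uu_of hC]
  have hnn : ∀ j, 0 ≤ (fun j => uu K e (cl p j C) R) j := fun j => uu_nonneg _ _ _ _
  constructor
  · rw [← e2]
    exact single_le_sum (f := fun i => uu K e (cl p i C) R) (fun i _ => uu_nonneg _ _ _ _)
      (mem_range.2 htN)
  · have h1 := single_le_sum (f := fun i => ((uu K e (cl p i C) R) ^ 2 +
      2 * min (uu K e (cl p i C) R * tl N (fun j => uu K e (cl p j C) R) i)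
        (δ * (uu K e (cl p i C) R) ^ 2))) (fun i _ => by
        have h2 : 0 ≤ min (uu K e (cl p i C) R * tl N (fun j => uu K e (cl p j C) R) i)
          (δ * (uu K e (cl p i C) R) ^ 2) :=
          le_min (mul_nonneg (uu_nonneg _ _ _ _) (tl_nonneg hnn _)) (by positivity)
        have := sq_nonneg (uu K e (cl p i C) R)
        show 0 ≤ (uu K e (cl p i C) R) ^ 2 + 2 * min (uu K e (cl p i C) R *
          tl N (fun j => uu K e (cl p j C) R) i) (δ * (uu K e (cl p i C) R) ^ 2)
        linarith) (mem_range.2 htN)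
    refine le_trans ?_ h1
    show Real.exp (F 1 K e C R) ^ 2 ≤ (uu K e (cl p t C) R) ^ 2 +
      2 * min (uu K e (cl p t C) R * tl N (fun j => uu K e (cl p j C) R) t)
        (δ * (uu K e (cl p t C) R) ^ 2)
    rw [e2]
    have h2 : 0 ≤ min (Real.exp (F 1 K e C R) * tl N (fun j => uu K e (cl p j C) R) t)
        (δ * Real.exp (F 1 K e C R) ^ 2) :=
      le_min (mul_nonneg (Real.exp_pos _).le (tl_nonneg hnn _)) (by positivity)
    linarith

end Pool.Agent.Zk30
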